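import Mathlib

open Polynomial

namespace Pool.Agent.Helper47.Splinter

section FieldPart

/-- The elements of `L` integral over the image of a ring map. -/
def IntOver {S : Type*} [CommRing S] {L : Type*} [Field L] (f : S →+* L) : Subring L where
  carrier := {z | f.IsIntegralElem z}
  mul_mem' := fun ha hb => RingHom.IsIntegralElem.mul _ ha hb
  add_mem' := fun ha hb => RingHom.IsIntegralElem.add _ ha hb
  one_mem' := RingHom.isIntegralElem_one _
  zero_mem' := RingHom.isIntegralElem_zero _
  neg_mem' := fun ha => RingHom.IsIntegralElem.neg _ ha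

lemma mem_IntOver {S : Type*} [CommRing S] {L : Type*} [Field L] {f : S →+* L} {z : L} :
    z ∈ IntOver f ↔ f.IsIntegralElem z := Iff.rfl

lemma map_mem_IntOver {S : Type*} [CommRing S] {L : Type*} [Field L] (f : S →+* L) (s : S) :
    f s ∈ IntOver f := RingHom.isIntegralElem_map _

/-- Transitivity of integrality, in the form used below. -/
lemma mem_IntOver_of_root {S : Type*} [CommRing S] {L : Type*} [Field L] (f : S →+* L)
    (q : L[X]) (hq : q.Monic) (hc : ∀ n, q.coeff n ∈ IntOver f) {b : L} (hb : q.eval b = 0) :
    b ∈ IntOver f := by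
  letI := f.toAlgebra
  have h1 : IsIntegral (integralClosure S L) b := by
    have hl : q ∈ Polynomial.lifts (algebraMap (integralClosure S L) L) := by
      rw [Polynomial.lifts_iff_coeff_lifts]
      intro n
      exact ⟨⟨q.coeff n, hc n⟩, rfl⟩
    obtain ⟨q', hq', -, hm⟩ := Polynomial.lifts_and_natDegree_eq_and_monic hl hq
    refine ⟨q', hm, ?_⟩
    rw [Polynomial.eval₂_eq_eval_map, hq', hb]
  have h2 : IsIntegral S b := isIntegral_trans (R := S) (A := integralClosure S L) b h1
  exact h2

/-- If `z` is integral over `R[x]` and over `R[x⁻¹]` then it is integral over `R`. -/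
lemma isIntegral_of_inter {R : Type*} [CommRing R] {L : Type*} [Field L] [Algebra R L]
    {x z : L}
    (h0 : z ∈ IntOver (aeval x : R[X] →ₐ[R] L).toRingHom)
    (h1 : z ∈ IntOver (aeval x⁻¹ : R[X] →ₐ[R] L).toRingHom) : IsIntegral R z := by
  by_contra hz
  haveI : IsIntegrallyClosedIn (integralClosure R L).toSubring L := by
    rw [Subring.isIntegrallyClosedIn_iff]
    intro w hw
    exact isIntegral_trans (R := R) (A := integralClosure R L) w hw
  obtain ⟨V, hV, hzV⟩ := Subring.exists_le_valuationSubring_of_isIntegrallyClosedIn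
    (R := (integralClosure R L).toSubring) (x := z) hz
  have key : ∀ y : L, y ∈ V → z ∈ IntOver (aeval y : R[X] →ₐ[R] L).toRingHom → False := by
    intro y hy hzy
    apply hzV
    obtain ⟨p, hp, hpz⟩ := hzy
    have hRV : ∀ r : R, algebraMap R L r ∈ V := fun r => hV (show algebraMap R L r ∈
      (integralClosure R L).toSubring from (integralClosure R L).algebraMap_mem r)
    have hcoef : ∀ q : R[X], aeval y q ∈ V := by
      intro q
      rw [Polynomial.aeval_eq_sum_range]
      apply sum_mem
      intro i _
      rw [Algebra.smul_def]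
      exact V.mul_mem _ _ (hRV _) (pow_mem hy _)
    have hI : IsIntegral V z := by
      have hl : p.map (aeval y : R[X] →ₐ[R] L).toRingHom ∈
          Polynomial.lifts (algebraMap V L) := by
        rw [Polynomial.lifts_iff_coeff_lifts]
        intro n
        rw [Polynomial.coeff_map]
        exact ⟨⟨_, hcoef (p.coeff n)⟩, rfl⟩
      obtain ⟨q', hq', -, hm⟩ := Polynomial.lifts_and_natDegree_eq_and_monic hl (hp.map _)
      refine ⟨q', hm, ?_⟩
      rw [Polynomial.eval₂_eq_eval_map, hq', ← Polynomial.eval₂_eq_eval_map]
      exact hpz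
    obtain ⟨v, hv⟩ := IsIntegrallyClosed.isIntegral_iff.mp hI
    rw [← hv]
    exact v.2
  rcases V.mem_or_inv_mem x with hx | hx
  · exact key x hx h0
  · exact key x⁻¹ hx h1

end FieldPart

end Pool.Agent.Helper47.Splinter
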