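import Mathlib
import Pool.Agent.Helper47.SplField

open Polynomial

namespace Pool.Agent.Helper47.Splinter

/-- Specialisation: extend `A[y] → L`, `y ↦ 0`, to the elements integral over `R[y]`. -/
lemma exists_special {R : Type*} [CommRing R] {L : Type*} [Field L] [IsAlgClosed L] [Algebra R L]
    (y : L) (hy : Transcendental (integralClosure R L) y) :
    ∃ ι : IntOver (aeval y : R[X] →ₐ[R] L).toRingHom →+* L,
      (∀ z : IntOver (aeval y : R[X] →ₐ[R] L).toRingHom, (z : L) = y → ι z = 0) ∧
      ∀ z : IntOver (aeval y : R[X] →ₐ[R] L).toRingHom, IsIntegral R (z : L) → ι z = z := by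
  classical
  let A := integralClosure R L
  let B := IntOver (aeval y : R[X] →ₐ[R] L).toRingHom
  -- elements integral over R lie in B
  have hAB : ∀ z : L, IsIntegral R z → z ∈ B := by
    intro z hz
    obtain ⟨p, hp, hpz⟩ := hz
    refine ⟨p.map (C : R →+* R[X]), hp.map _, ?_⟩
    rw [Polynomial.eval₂_map]
    have : ((aeval y : R[X] →ₐ[R] L).toRingHom.comp (C : R →+* R[X])) = algebraMap R L := by
      ext r; simp
    rw [this]; exact hpz
  have hyB : y ∈ B := by
    have h := map_mem_IntOver (aeval y : R[X] →ₐ[R] L).toRingHom X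
    have h2 : (aeval y : R[X] →ₐ[R] L).toRingHom X = y := by simp
    rw [h2] at h
    exact h
  have heB : ∀ q : A[X], aeval y q ∈ B := by
    intro q
    rw [Polynomial.aeval_eq_sum_range]
    apply sum_mem
    intro i _
    rw [Algebra.smul_def]
    exact B.mul_mem (hAB _ (q.coeff i).2) (pow_mem hyB _)
  let e : A[X] →+* B := (aeval y : A[X] →ₐ[A] L).toRingHom.codRestrict B heB
  have he : ∀ q, ((e q : B) : L) = aeval y q := fun q => rfl
  letI : Algebra A[X] B := e.toAlgebra
  have hint : Algebra.IsIntegral A[X] B := by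
    constructor
    rintro ⟨z, p, hp, hpz⟩
    refine ⟨p.map (mapRingHom (algebraMap R A)), hp.map _, ?_⟩
    rw [Polynomial.eval₂_map]
    apply Subtype.ext
    change ((B.subtype) (eval₂ _ _ p)) = 0
    rw [Polynomial.hom_eval₂]
    have hcomp : B.subtype.comp ((algebraMap A[X] B).comp (mapRingHom (algebraMap R A))) =
        (aeval y : R[X] →ₐ[R] L).toRingHom := by
      apply Polynomial.ringHom_ext
      · intro r
        change aeval y (mapRingHom (algebraMap R A) (C r)) = aeval y (C r)
        simp
      · change aeval y (mapRingHom (algebraMap R A) X) = aeval y (X : R[X])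
        simp
    rw [hcomp]
    exact hpz
  have hinj : Function.Injective e := by
    intro a b hab
    have h1 : aeval y a = aeval y b := by
      rw [← he, ← he, hab]
    exact (transcendental_iff_injective.mp hy) h1
  let P : Ideal A[X] := RingHom.ker (constantCoeff : A[X] →+* A)
  haveI : P.IsPrime := RingHom.ker_isPrime _
  obtain ⟨Q, -, hQp, hQ⟩ := Ideal.exists_ideal_over_prime_of_isIntegral P (⊥ : Ideal B) (by
    rw [← RingHom.ker_eq_comap_bot]
    change RingHom.ker e ≤ P
    rw [(RingHom.injective_iff_ker_eq_bot _).mp hinj]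
    exact bot_le)
  let C' := B ⧸ Q
  letI : Algebra A C' := ((Ideal.Quotient.mk Q).comp (e.comp C)).toAlgebra
  have hred : ∀ q : A[X], Ideal.Quotient.mk Q (e q) = algebraMap A C' (constantCoeff q) := by
    intro q
    change Ideal.Quotient.mk Q (e q) = Ideal.Quotient.mk Q (e (C (constantCoeff q)))
    rw [Ideal.Quotient.eq, ← map_sub]
    have : q - C (constantCoeff q) ∈ P := by
      change constantCoeff (q - C (constantCoeff q)) = 0
      simp
    rw [← hQ] at this
    exact this
  have hinjA : Function.Injective (algebraMap A C') := by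
    rw [injective_iff_map_eq_zero]
    intro a ha
    have h1 : e (C a) ∈ Q := Ideal.Quotient.eq_zero_iff_mem.mp ha
    have h2 : (C a : A[X]) ∈ P := by rw [← hQ]; exact h1
    have h3 : constantCoeff (C a : A[X]) = 0 := h2
    simpa using h3
  haveI : Algebra.IsIntegral A C' := by
    constructor
    intro c
    obtain ⟨z, rfl⟩ := Ideal.Quotient.mk_surjective c
    obtain ⟨p, hp, hpz⟩ := hint.isIntegral z
    refine ⟨p.map (constantCoeff), hp.map _, ?_⟩
    rw [Polynomial.eval₂_map]
    have h1 : (algebraMap A C').comp constantCoeff = (Ideal.Quotient.mk Q).comp e := by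
      ext q
      · simp only [RingHom.coe_comp, Function.comp_apply]
        rw [hred]
      · simp only [RingHom.coe_comp, Function.comp_apply]
        rw [hred]
    rw [h1]
    have h2 := congrArg (Ideal.Quotient.mk Q) hpz
    rw [Polynomial.hom_eval₂] at h2
    rw [map_zero] at h2
    exact h2
  haveI : FaithfulSMul A C' := (faithfulSMul_iff_algebraMap_injective A C').mpr hinjA
  haveI : IsDomain C' := Ideal.Quotient.isDomain Q
  haveI : Module.IsTorsionFree A C' :=
    Module.isTorsionFree_iff_faithfulSMul.mpr inferInstance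
  haveI : Algebra.IsAlgebraic A C' := inferInstance
  let l : C' →ₐ[A] L := IsAlgClosed.lift
  refine ⟨l.toRingHom.comp (Ideal.Quotient.mk Q), ?_, ?_⟩
  · rintro z hz
    have h1 : z = e X := Subtype.ext (by rw [he]; simpa using hz)
    change l (Ideal.Quotient.mk Q z) = 0
    rw [h1, hred]
    simp
  · intro z hz
    have h1 : z = e (C ⟨(z : L), hz⟩) := Subtype.ext (by rw [he]; simp)
    change l (Ideal.Quotient.mk Q z) = z
    rw [h1, hred]
    simp only [constantCoeff_apply, coeff_C_zero, AlgHom.commutes]
    rw [he]
    simp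

end Pool.Agent.Helper47.Splinter
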