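import Mathlib
import Pool.Agent.Helper47.SplSpec

open Polynomial

namespace Pool.Agent.Helper47.Splinter

variable {R : Type*} [CommRing R] {L : Type*} [Field L] [Algebra R L]

/-- The elements of `L` integral over `R[y]`, as an `R`-subalgebra. -/
def AI (R : Type*) [CommRing R] {L : Type*} [Field L] [Algebra R L] (y : L) :
    Subalgebra R L where
  carrier := {z | (aeval y : R[X] →ₐ[R] L).toRingHom.IsIntegralElem z}
  mul_mem' := fun ha hb => RingHom.IsIntegralElem.mul _ ha hb
  add_mem' := fun ha hb => RingHom.IsIntegralElem.add _ ha hb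
  algebraMap_mem' := fun r => by
    have h := map_mem_IntOver (aeval y : R[X] →ₐ[R] L).toRingHom (C r)
    have h2 : (aeval y : R[X] →ₐ[R] L).toRingHom (C r) = algebraMap R L r := by simp
    rw [h2] at h
    exact h

lemma mem_AI {y z : L} : z ∈ AI R y ↔ z ∈ IntOver (aeval y : R[X] →ₐ[R] L).toRingHom := by
  constructor
  · intro h; exact h
  · intro h; exact h

lemma aeval_mem_AI (y : L) (q : R[X]) : aeval y q ∈ AI R y :=
  mem_AI.mpr (map_mem_IntOver (aeval y : R[X] →ₐ[R] L).toRingHom q)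

lemma self_mem_AI (y : L) : y ∈ AI R y := by
  have := aeval_mem_AI (R := R) y X
  simpa using this

/-- Algebra homomorphism version of the specialisation lemma. -/
lemma exists_special_alg [IsAlgClosed L] (y : L) (hy : Transcendental (integralClosure R L) y) :
    ∃ ι : AI R y →ₐ[R] L, ι ⟨y, self_mem_AI y⟩ = 0 ∧
      ∀ z : AI R y, IsIntegral R (z : L) → ι z = z := by
  obtain ⟨ι, h0, h1⟩ := exists_special (R := R) y hy
  refine ⟨{ toFun := fun z => ι ⟨z.1, mem_AI.mp z.2⟩
            map_one' := ι.map_one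
            map_mul' := fun a b => ι.map_mul ⟨a.1, mem_AI.mp a.2⟩ ⟨b.1, mem_AI.mp b.2⟩
            map_zero' := ι.map_zero
            map_add' := fun a b => ι.map_add ⟨a.1, mem_AI.mp a.2⟩ ⟨b.1, mem_AI.mp b.2⟩
            commutes' := fun r => h1 ⟨algebraMap R L r, mem_AI.mp ((AI R y).algebraMap_mem r)⟩
              isIntegral_algebraMap }, ?_, ?_⟩
  · exact h0 _ rfl
  · intro z hz
    exact h1 ⟨z.1, mem_AI.mp z.2⟩ hz

/-- If `z` is integral over `R[x]` then `x⁻ᵐ z` is integral over `R[x⁻¹]` for `m` large. -/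
lemma exists_pow_mul_mem {x z : L} (hx : x ≠ 0) (hz : z ∈ AI R x) :
    ∃ M : ℕ, ∀ m, M ≤ m → x⁻¹ ^ m * z ∈ AI R x⁻¹ := by
  obtain ⟨p, hp, hpz⟩ := mem_AI.mp hz
  set M : ℕ := p.support.sup (fun i => (p.coeff i).natDegree) with hM
  have hdeg : ∀ i, (p.coeff i).natDegree ≤ M := by
    intro i
    by_cases hi : i ∈ p.support
    · exact Finset.le_sup (f := fun i => (p.coeff i).natDegree) hi
    · rw [Polynomial.notMem_support_iff.mp hi]; simp
  have hmain : x⁻¹ ^ M * z ∈ AI R x⁻¹ := by
    letI := invertibleOfNonzero hx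
    let f : R[X] →+* L := (aeval x : R[X] →ₐ[R] L).toRingHom
    have hfm : (p.map f).Monic := hp.map f
    refine mem_AI.mpr (mem_IntOver_of_root _ (scaleRoots (p.map f) (x⁻¹ ^ M)) ?_ ?_ ?_)
    · exact (Polynomial.monic_scaleRoots_iff _).mpr hfm
    · intro n
      rw [← mem_AI, Polynomial.coeff_scaleRoots, Polynomial.coeff_map]
      by_cases hn : n < (p.map f).natDegree
      · obtain ⟨k, hk⟩ := Nat.exists_eq_add_of_lt hn
        have hk' : (p.map f).natDegree - n = k + 1 := by omega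
        rw [hk', pow_succ', ← mul_assoc]
        apply Subalgebra.mul_mem
        · have h1 : f (p.coeff n) * x⁻¹ ^ M = aeval x⁻¹ (reflect M (p.coeff n)) := by
            have h2 := eval₂_reflect_mul_pow (algebraMap R L) x M (p.coeff n) (hdeg n)
            have h3 : f (p.coeff n) = eval₂ (algebraMap R L) x (p.coeff n) := rfl
            rw [h3, ← h2, mul_assoc, ← mul_pow, mul_inv_cancel₀ hx, one_pow, mul_one]
            rw [invOf_eq_inv]
            rfl
          rw [h1]
          exact aeval_mem_AI x⁻¹ _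
        · exact Subalgebra.pow_mem _ (Subalgebra.pow_mem _ (self_mem_AI x⁻¹) _) _
      · by_cases hn' : n = (p.map f).natDegree
        · have h1 : f (p.coeff n) = 1 := by
            have := hfm.coeff_natDegree
            rw [← hn', Polynomial.coeff_map] at this
            exact this
          rw [h1, hn']
          simp only [le_refl, tsub_eq_zero_of_le, pow_zero, mul_one]
          exact Subalgebra.one_mem _
        · have h1 : (p.map f).coeff n = 0 := by
            apply Polynomial.coeff_eq_zero_of_natDegree_lt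
            omega
          rw [Polynomial.coeff_map] at h1
          rw [h1, zero_mul]
          exact Subalgebra.zero_mem _
    · have h1 : eval₂ (RingHom.id L) z (p.map f) = 0 := by
        rw [Polynomial.eval₂_map]
        exact hpz
      have h2 := Polynomial.scaleRoots_eval₂_eq_zero (RingHom.id L) h1 (s := x⁻¹ ^ M)
      exact h2
  refine ⟨M, fun m hm => ?_⟩
  obtain ⟨k, rfl⟩ := Nat.exists_eq_add_of_le hm
  rw [pow_add, mul_comm (x⁻¹ ^ M), mul_assoc]
  exact Subalgebra.mul_mem _ (Subalgebra.pow_mem _ (self_mem_AI _) _) hmain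

/-- The sum of the two integral closures. -/
def NN (R : Type*) [CommRing R] {L : Type*} [Field L] [Algebra R L] (x : L) : Submodule R L where
  carrier := {z | ∃ a ∈ AI R x, ∃ c ∈ AI R x⁻¹, a + c = z}
  add_mem' := by
    rintro _ _ ⟨a, ha, c, hc, rfl⟩ ⟨a', ha', c', hc', rfl⟩
    exact ⟨a + a', add_mem ha ha', c + c', add_mem hc hc', by ring⟩
  zero_mem' := ⟨0, zero_mem _, 0, zero_mem _, by ring⟩
  smul_mem' := by
    rintro r _ ⟨a, ha, c, hc, rfl⟩
    exact ⟨r • a, Subalgebra.smul_mem _ ha r, r • c, Subalgebra.smul_mem _ hc r, by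
      rw [smul_add]⟩

lemma mem_NN {x z : L} : z ∈ NN R x ↔ ∃ a ∈ AI R x, ∃ c ∈ AI R x⁻¹, a + c = z := by
  constructor
  · intro h; exact h
  · intro h; exact h

lemma mem_NN_left {x z : L} (h : z ∈ AI R x) : z ∈ NN R x :=
  mem_NN.mpr ⟨z, h, 0, zero_mem _, add_zero z⟩

lemma mem_NN_right {x z : L} (h : z ∈ AI R x⁻¹) : z ∈ NN R x :=
  mem_NN.mpr ⟨0, zero_mem _, z, h, zero_add z⟩

/-- Gluing the two specialisations. -/
lemma exists_glue [IsAlgClosed L] (x : L) (hx : Transcendental (integralClosure R L) x)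
    (hx' : Transcendental (integralClosure R L) x⁻¹) :
    ∃ F : NN R x →ₗ[R] L,
      (∀ a (ha : a ∈ AI R x) (hn : x * a ∈ NN R x), F ⟨x * a, hn⟩ = 0) ∧
      (∀ a (ha : a ∈ AI R x⁻¹) (hn : x⁻¹ * a ∈ NN R x), F ⟨x⁻¹ * a, hn⟩ = 0) ∧
      (∀ hn : (1 : L) ∈ NN R x, F ⟨1, hn⟩ = 1) ∧
      (∀ z : NN R x, IsIntegral R (F z)) := by
  obtain ⟨ι0, h00, h01⟩ := exists_special_alg (R := R) x hx
  obtain ⟨ι1, h10, h11⟩ := exists_special_alg (R := R) x⁻¹ hx'
  have hagree : ∀ (a : AI R x) (c : AI R x⁻¹) (a' : AI R x) (c' : AI R x⁻¹),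
      (a : L) + c = a' + c' → ι0 a + ι1 c = ι0 a' + ι1 c' := by
    intro a c a' c' hab
    have h1 : ((a - a' : AI R x) : L) = ((c' - c : AI R x⁻¹) : L) := by
      push_cast
      linear_combination hab
    have hint : IsIntegral R ((a - a' : AI R x) : L) :=
      isIntegral_of_inter (mem_AI.mp (a - a').2) (by rw [h1]; exact mem_AI.mp (c' - c).2)
    have h2 := h01 _ hint
    have h3 := h11 (c' - c) (by rw [← h1]; exact hint)
    rw [map_sub] at h2 h3
    have h4 : ι0 a - ι0 a' = ι1 c' - ι1 c := by rw [h2, h3, h1]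
    linear_combination h4
  have hi0 : ∀ z : AI R x, IsIntegral R (ι0 z) := by
    intro z
    obtain ⟨p, hp, hpz⟩ := mem_AI.mp z.2
    refine ⟨p.map constantCoeff, hp.map _, ?_⟩
    rw [Polynomial.eval₂_map]
    let e : R[X] →+* AI R x := (aeval (⟨x, self_mem_AI x⟩ : AI R x) : R[X] →ₐ[R] AI R x).toRingHom
    have he : eval₂ e z p = 0 := by
      apply Subtype.ext
      change ((AI R x).val.toRingHom (eval₂ e z p)) = 0
      rw [Polynomial.hom_eval₂]
      have hc : (AI R x).val.toRingHom.comp e = (aeval x : R[X] →ₐ[R] L).toRingHom := by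
        apply Polynomial.ringHom_ext
        · intro r
          simp [e]
        · simp [e]
      rw [hc]
      exact hpz
    have h1 : (algebraMap R L).comp constantCoeff = ι0.toRingHom.comp e := by
      apply Polynomial.ringHom_ext
      · intro r
        simp [e]
      · simp [e, h00]
    rw [h1]
    have h2 := congrArg ι0.toRingHom he
    rw [Polynomial.hom_eval₂, map_zero] at h2
    exact h2
  have hi1 : ∀ z : AI R x⁻¹, IsIntegral R (ι1 z) := by
    intro z
    obtain ⟨p, hp, hpz⟩ := mem_AI.mp z.2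
    refine ⟨p.map constantCoeff, hp.map _, ?_⟩
    rw [Polynomial.eval₂_map]
    let e : R[X] →+* AI R x⁻¹ :=
      (aeval (⟨x⁻¹, self_mem_AI x⁻¹⟩ : AI R x⁻¹) : R[X] →ₐ[R] AI R x⁻¹).toRingHom
    have he : eval₂ e z p = 0 := by
      apply Subtype.ext
      change ((AI R x⁻¹).val.toRingHom (eval₂ e z p)) = 0
      rw [Polynomial.hom_eval₂]
      have hc : (AI R x⁻¹).val.toRingHom.comp e = (aeval x⁻¹ : R[X] →ₐ[R] L).toRingHom := by
        apply Polynomial.ringHom_ext
        · intro r
          simp [e]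
        · simp [e]
      rw [hc]
      exact hpz
    have h1 : (algebraMap R L).comp constantCoeff = ι1.toRingHom.comp e := by
      apply Polynomial.ringHom_ext
      · intro r
        simp [e]
      · simp [e, h10]
    rw [h1]
    have h2 := congrArg ι1.toRingHom he
    rw [Polynomial.hom_eval₂, map_zero] at h2
    exact h2
  choose fa hfa fc hfc hfac using fun z : NN R x => mem_NN.mp z.2
  let G : NN R x → L := fun z => ι0 ⟨fa z, hfa z⟩ + ι1 ⟨fc z, hfc z⟩
  have hG : ∀ (z : NN R x) (a : AI R x) (c : AI R x⁻¹), (a : L) + c = z → G z = ι0 a + ι1 c := by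
    intro z a c h
    apply hagree
    change fa z + fc z = a + c
    rw [hfac z, h]
  let F : NN R x →ₗ[R] L :=
    { toFun := G
      map_add' := by
        intro z w
        rw [hG (z + w) (⟨fa z, hfa z⟩ + ⟨fa w, hfa w⟩) (⟨fc z, hfc z⟩ + ⟨fc w, hfc w⟩)]
        · rw [map_add, map_add]
          change _ = (ι0 ⟨fa z, hfa z⟩ + ι1 ⟨fc z, hfc z⟩) +
            (ι0 ⟨fa w, hfa w⟩ + ι1 ⟨fc w, hfc w⟩)
          ring
        · change (fa z + fa w) + (fc z + fc w) = (z : L) + w
          rw [← hfac z, ← hfac w]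
          ring
      map_smul' := by
        intro r z
        rw [hG (r • z) (r • ⟨fa z, hfa z⟩) (r • ⟨fc z, hfc z⟩)]
        · rw [map_smul, map_smul, RingHom.id_apply, ← smul_add]
        · change r • (fa z) + r • (fc z) = r • (z : L)
          rw [← hfac z, smul_add] }
  have hF : ∀ (z : NN R x) (a : AI R x) (c : AI R x⁻¹), (a : L) + c = z → F z = ι0 a + ι1 c :=
    hG
  refine ⟨F, ?_, ?_, ?_, ?_⟩
  · intro a ha hn
    rw [hF ⟨x * a, hn⟩ (⟨x, self_mem_AI x⟩ * ⟨a, ha⟩) 0 (by simp)]
    rw [map_mul, h00, zero_mul, map_zero, add_zero]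
  · intro a ha hn
    rw [hF ⟨x⁻¹ * a, hn⟩ 0 (⟨x⁻¹, self_mem_AI x⁻¹⟩ * ⟨a, ha⟩) (by simp)]
    rw [map_mul, h10, zero_mul, map_zero, add_zero]
  · intro hn
    rw [hF ⟨1, hn⟩ 1 0 (by simp), map_one, map_zero, add_zero]
  · intro z
    exact IsIntegral.add (hi0 _) (hi1 _)

end Pool.Agent.Helper47.Splinter
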