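import Mathlib
import Pool.Agent.Helper47.SplGlue

open Polynomial

namespace Pool.Agent.Helper47.Splinter

variable {R : Type*} [CommRing R] {L : Type*} [Field L] [Algebra R L]

/-- Solving an additive equation: if `b ^ p ^ e` is an `R`-combination of lower Frobenius powers of
`b` modulo `NN R x`, then `b` lies in `NN R x`. -/
lemma mem_NN_of_frobenius [IsAlgClosed L] (p : ℕ) [Fact p.Prime] [CharP L p] (x b : L) (e : ℕ)
    (r : Fin e → R) (h : b ^ p ^ e - ∑ j, r j • b ^ p ^ (j : ℕ) ∈ NN R x) : b ∈ NN R x := by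
  classical
  obtain ⟨a, ha, c, hc, hac⟩ := mem_NN.mp h
  let Q : L[X] := ∑ j : Fin e, C (algebraMap R L (r j)) * X ^ p ^ (j : ℕ)
  let G : L[X] := X ^ p ^ e - Q
  have hp1 : 1 < p := (Fact.out : p.Prime).one_lt
  have hQdeg : Q.degree < ((p ^ e : ℕ) : WithBot ℕ) := by
    refine lt_of_le_of_lt (Polynomial.degree_sum_le _ _) ?_
    rw [Finset.sup_lt_iff (WithBot.bot_lt_coe _)]
    intro j _
    refine lt_of_le_of_lt (Polynomial.degree_C_mul_X_pow_le _ _) ?_
    exact_mod_cast Nat.pow_lt_pow_right hp1 j.2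
  have hGm : G.Monic := by
    apply Monic.sub_of_left (monic_X_pow _)
    rw [degree_X_pow]
    exact hQdeg
  have hGdeg : G.degree = ((p ^ e : ℕ) : WithBot ℕ) := by
    have h1 : G.degree = (X ^ p ^ e : L[X]).degree := by
      apply Polynomial.degree_sub_eq_left_of_degree_lt
      rw [degree_X_pow]; exact hQdeg
    rw [h1, degree_X_pow]
  have hGpos : 0 < G.degree := by
    rw [hGdeg]
    exact_mod_cast Nat.pow_pos (by omega)
  have hGeval : ∀ z, G.eval z = z ^ p ^ e - ∑ j : Fin e, algebraMap R L (r j) * z ^ p ^ (j : ℕ) := by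
    intro z
    simp [G, Q, Polynomial.eval_finset_sum]
  have hadd : ∀ z w, G.eval (z + w) = G.eval z + G.eval w := by
    intro z w
    rw [hGeval, hGeval, hGeval, add_pow_char_pow]
    have : ∀ j : Fin e, algebraMap R L (r j) * (z + w) ^ p ^ (j : ℕ) =
        algebraMap R L (r j) * z ^ p ^ (j : ℕ) + algebraMap R L (r j) * w ^ p ^ (j : ℕ) := by
      intro j
      rw [add_pow_char_pow, mul_add]
    simp_rw [this]
    rw [Finset.sum_add_distrib]
    ring
  -- membership of coefficients
  have hcoef : ∀ (y : L) (u : L) (_ : u ∈ AI R y) (n : ℕ), (G - C u).coeff n ∈ AI R y := by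
    intro y u hu n
    rw [coeff_sub]
    apply sub_mem
    · rw [show G = X ^ p ^ e - Q from rfl, coeff_sub, coeff_X_pow, Polynomial.finset_sum_coeff]
      apply sub_mem
      · split_ifs
        · exact one_mem _
        · exact zero_mem _
      · apply sum_mem
        intro j _
        rw [coeff_C_mul, coeff_X_pow]
        apply mul_mem ((AI R y).algebraMap_mem _)
        split_ifs
        · exact one_mem _
        · exact zero_mem _
    · rw [coeff_C]
      split_ifs
      · exact hu
      · exact zero_mem _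
  have hmon : ∀ u : L, (G - C u).Monic := by
    intro u
    apply Monic.sub_of_left hGm
    exact lt_of_le_of_lt degree_C_le hGpos
  obtain ⟨β, hβ⟩ := IsAlgClosed.exists_root (G - C a) (by
    have h1 : (G - C a).degree = G.degree :=
      Polynomial.degree_sub_eq_left_of_degree_lt (lt_of_le_of_lt degree_C_le hGpos)
    rw [h1]
    exact hGpos.ne')
  have hβ' : G.eval β = a := by
    have := hβ.eq_zero
    rw [eval_sub, eval_C, sub_eq_zero] at this
    exact this
  have hβA : β ∈ AI R x := mem_AI.mpr (mem_IntOver_of_root _ (G - C a) (hmon a)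
    (fun n => mem_AI.mp (hcoef x a ha n)) hβ.eq_zero)
  have hb : G.eval b = a + c := by
    rw [hGeval, hac]
    congr 1
    apply Finset.sum_congr rfl
    intro j _
    rw [Algebra.smul_def]
  have hγ : (G - C c).eval (b - β) = 0 := by
    have h1 : G.eval b = G.eval (b - β) + G.eval β := by
      rw [← hadd]; congr 1; ring
    rw [eval_sub, eval_C]
    rw [hb, hβ'] at h1
    linear_combination -h1
  have hγA : b - β ∈ AI R x⁻¹ := mem_AI.mpr (mem_IntOver_of_root _ (G - C c) (hmon c)
    (fun n => mem_AI.mp (hcoef x⁻¹ c hc n)) hγ)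
  exact mem_NN.mpr ⟨β, hβA, b - β, hγA, by ring⟩

/-- Frobenius together with the noetherian property pushes `B` into `NN R x`. -/
lemma mem_NN_of_noetherian [IsNoetherianRing R] [IsAlgClosed L] (p : ℕ) [Fact p.Prime] [CharP L p]
    (x : L) (S : Set L) (hS : S.Finite) (b : L)
    (h : ∀ j : ℕ, b ^ p ^ j ∈ Submodule.span R S ⊔ NN R x) : b ∈ NN R x := by
  classical
  -- work in the quotient
  let v : ℕ → L ⧸ NN R x := fun j => (NN R x).mkQ (b ^ p ^ j)
  have hfin : (Submodule.map (NN R x).mkQ (Submodule.span R S)).FG :=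
    Submodule.FG.map _ (Submodule.fg_span hS)
  have hsub : Submodule.span R (Set.range v) ≤ Submodule.map (NN R x).mkQ (Submodule.span R S) := by
    rw [Submodule.span_le]
    rintro _ ⟨j, rfl⟩
    obtain ⟨s, hs, n, hn, hsn⟩ := Submodule.mem_sup.mp (h j)
    refine ⟨s, hs, ?_⟩
    change (NN R x).mkQ s = (NN R x).mkQ (b ^ p ^ j)
    rw [← hsn, map_add]
    have : (NN R x).mkQ n = 0 := by simpa using hn
    rw [this, add_zero]
  haveI : IsNoetherian R (Submodule.map (NN R x).mkQ (Submodule.span R S)) :=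
    isNoetherian_of_fg_of_noetherian _ hfin
  have hfg : (Submodule.span R (Set.range v)).FG := by
    have h1 : (Submodule.comap (Submodule.map (NN R x).mkQ (Submodule.span R S)).subtype
      (Submodule.span R (Set.range v))).FG := IsNoetherian.noetherian _
    have h2 := h1.map (Submodule.map (NN R x).mkQ (Submodule.span R S)).subtype
    rw [Submodule.map_comap_subtype, inf_eq_right.mpr hsub] at h2
    exact h2
  obtain ⟨s', hs', hspan⟩ := Submodule.fg_span_iff_fg_span_finset_subset _ |>.mp hfg
  -- find a bound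
  have hchoose : ∀ u ∈ s', ∃ j, v j = u := fun u hu => hs' hu
  choose! g hg using hchoose
  let e : ℕ := s'.sup g + 1
  have hmem : v e ∈ Submodule.span R (Set.range (fun j : Fin e => v j)) := by
    have h1 : v e ∈ Submodule.span R (Set.range v) := Submodule.subset_span ⟨e, rfl⟩
    rw [hspan] at h1
    refine Submodule.span_mono ?_ h1
    intro u hu
    have hlt : g u < e := Nat.lt_succ_of_le (Finset.le_sup (f := g) hu)
    exact ⟨⟨g u, hlt⟩, hg u hu⟩
  obtain ⟨r, hr⟩ := Submodule.mem_span_range_iff_exists_fun R |>.mp hmem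
  apply mem_NN_of_frobenius p x b e r
  rw [← Submodule.Quotient.mk_eq_zero]
  change (NN R x).mkQ (b ^ p ^ e - ∑ j, r j • b ^ p ^ (j : ℕ)) = 0
  rw [map_sub, map_sum, sub_eq_zero]
  have : ∀ j : Fin e, (NN R x).mkQ (r j • b ^ p ^ (j : ℕ)) = r j • v j := by
    intro j
    rw [map_smul]
  simp_rw [this]
  exact hr.symm

end Pool.Agent.Helper47.Splinter
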