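import Mathlib
import Pool.Agent.Helper47.SplFrob

open Polynomial

namespace Pool.Agent.Helper47.Splinter

universe u

/-- An additive map to `R[X]` commuting with constants and with `X` is `R[X]`-linear. -/
lemma exists_linear_of_coeff {R : Type*} [CommRing R] {D : Type*} [CommRing D] [Algebra R[X] D]
    (c : D → ℕ → R) (hfin : ∀ d, ∃ N, ∀ n, N ≤ n → c d n = 0)
    (hadd : ∀ d d' n, c (d + d') n = c d n + c d' n)
    (hC : ∀ r d n, c (algebraMap R[X] D (C r) * d) n = r * c d n)
    (hX0 : ∀ d, c (algebraMap R[X] D X * d) 0 = 0)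
    (hX : ∀ d n, c (algebraMap R[X] D X * d) (n + 1) = c d n) :
    ∃ φ : D →ₗ[R[X]] R[X], ∀ d n, (φ d).coeff n = c d n := by
  choose N hN using hfin
  let g : D → R[X] := fun d => ∑ i ∈ Finset.range (N d), monomial i (c d i)
  have hg : ∀ d n, (g d).coeff n = c d n := by
    intro d n
    simp only [g, Polynomial.finset_sum_coeff, coeff_monomial]
    rw [Finset.sum_ite_eq']
    split_ifs with h
    · rfl
    · rw [Finset.mem_range, not_lt] at h
      rw [hN d n h]
  have hgadd : ∀ d d', g (d + d') = g d + g d' := by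
    intro d d'
    ext n
    rw [coeff_add, hg, hg, hg, hadd]
  have hgC : ∀ r d, g (algebraMap R[X] D (C r) * d) = C r * g d := by
    intro r d
    ext n
    rw [coeff_C_mul, hg, hg, hC]
  have hgX : ∀ d, g (algebraMap R[X] D X * d) = X * g d := by
    intro d
    ext n
    cases n with
    | zero => rw [hg, hX0, mul_comm, coeff_mul_X_zero]
    | succ n => rw [hg, hX, mul_comm, coeff_mul_X, hg]
  have hgsmul : ∀ (q : R[X]) d, g (q • d) = q * g d := by
    intro q
    induction q using Polynomial.induction_on with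
    | C a =>
      intro d
      rw [Algebra.smul_def, hgC]
    | add p q hp hq =>
      intro d
      rw [add_smul, hgadd, hp, hq, add_mul]
    | monomial n a h =>
      intro d
      have h1 : (C a * X ^ (n + 1) : R[X]) = X * (C a * X ^ n) := by ring
      rw [h1, mul_smul, Algebra.smul_def X, hgX, h]
      ring
  exact ⟨{ toFun := g, map_add' := hgadd, map_smul' := fun q d => hgsmul q d }, hg⟩

/-- Decomposition along `R[X]`-generators. -/
lemma zpow_mul_mem_of_gens {R : Type*} [CommRing R] {L : Type*} [Field L] [Algebra R L]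
    {D : Type*} [CommRing D] [Algebra R[X] D] (j : D →+* L) (x : L) (hx : x ≠ 0)
    (hj : ∀ f : R[X], j (algebraMap R[X] D f) = aeval x f) (s : Set D)
    (hs : Submodule.span R[X] s = ⊤) (K : Submodule R L)
    (hK : ∀ u ∈ s, ∀ n : ℤ, x ^ n * j u ∈ K) (d : D) : ∀ n : ℤ, x ^ n * j d ∈ K := by
  have hd : d ∈ Submodule.span R[X] s := by rw [hs]; trivial
  induction hd using Submodule.span_induction with
  | mem u hu => exact hK u hu
  | zero => intro n; simp
  | add a b _ _ ha hb =>
    intro n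
    rw [map_add, mul_add]
    exact K.add_mem (ha n) (hb n)
  | smul q a _ ha =>
    intro n
    rw [Algebra.smul_def, map_mul, hj, Polynomial.aeval_eq_sum_range, Finset.sum_mul,
      Finset.mul_sum]
    apply K.sum_mem
    intro i _
    have h1 : x ^ n * (q.coeff i • x ^ i * j a) = q.coeff i • (x ^ (n + i) * j a) := by
      rw [zpow_add₀ hx, zpow_natCast, Algebra.smul_def, Algebra.smul_def]
      ring
    rw [h1]
    exact K.smul_mem _ (ha _)

/-- `x` is transcendental over the elements algebraic over `R`. -/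
lemma transcendental_of_ker {R : Type*} [CommRing R] {L : Type*} [Field L] [Algebra R L] (x : L)
    (h : ∀ f : R[X], aeval x f = 0 → ∀ n, algebraMap R L (f.coeff n) = 0) :
    Transcendental (integralClosure R L) x := by
  intro halg
  let R' : Subring L := (algebraMap R L).range
  have hle : ∀ r : R', (r : L) ∈ integralClosure R L := by
    rintro ⟨_, r, rfl⟩
    exact (integralClosure R L).algebraMap_mem r
  letI : Algebra R' (integralClosure R L) :=
    (R'.subtype.codRestrict (integralClosure R L).toSubring hle).toAlgebra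
  haveI : IsScalarTower R' (integralClosure R L) L := IsScalarTower.of_algebraMap_eq fun _ => rfl
  haveI : Algebra.IsIntegral R' (integralClosure R L) := by
    constructor
    rintro ⟨a, ha⟩
    obtain ⟨q, hq, hqa⟩ := ha
    refine ⟨q.map (algebraMap R L).rangeRestrict, hq.map _, ?_⟩
    rw [Polynomial.eval₂_map]
    apply Subtype.ext
    change ((integralClosure R L).val.toRingHom (eval₂ _ _ q)) = 0
    rw [Polynomial.hom_eval₂]
    exact hqa
  have halg' : IsAlgebraic R' x := IsAlgebraic.restrictScalars R' halg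
  obtain ⟨q, hq0, hq⟩ := halg'
  obtain ⟨f, hf⟩ := Polynomial.map_surjective (algebraMap R L).rangeRestrict
    (RingHom.rangeRestrict_surjective _) q
  apply hq0
  have hf0 : aeval x f = 0 := by
    rw [← hf, aeval_def, Polynomial.eval₂_map] at hq
    rw [aeval_def]
    exact hq
  ext n
  rw [← hf, Polynomial.coeff_map, coeff_zero]
  exact h f hf0 n

theorem main_aux {R : Type u} [CommRing R] [IsNoetherianRing R] (p : ℕ) [Fact p.Prime]
    (hp : (p : R) = 0) {D : Type u} [CommRing D] [IsDomain D] [Algebra R[X] D]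
    [Module.Finite R[X] D]
    (hker : ∀ f : R[X], algebraMap R[X] D f = 0 → ∀ n, algebraMap R[X] D (C (f.coeff n)) = 0) :
    ∃ (W : Type u) (_ : CommRing W) (_ : IsDomain W) (_ : Algebra R W), Module.Finite R W ∧
      (∀ r, algebraMap R W r = 0 ↔ algebraMap R[X] D (C r) = 0) ∧
      ∀ ρ : W →ₗ[R] R, ∃ φ : D →ₗ[R[X]] R[X], φ 1 = C (ρ 1) := by
  classical
  let L := AlgebraicClosure (FractionRing D)
  let j : D →+* L := (algebraMap (FractionRing D) L).comp (algebraMap D (FractionRing D))
  have hjinj : Function.Injective j :=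
    (algebraMap (FractionRing D) L).injective.comp (IsFractionRing.injective D (FractionRing D))
  letI : Algebra R L := (j.comp ((algebraMap R[X] D).comp C)).toAlgebra
  let x : L := j (algebraMap R[X] D X)
  have halgR : ∀ r : R, algebraMap R L r = j (algebraMap R[X] D (C r)) := fun r => rfl
  have hj : ∀ f : R[X], j (algebraMap R[X] D f) = aeval x f := by
    intro f
    have h1 : j.comp (algebraMap R[X] D) = (aeval x : R[X] →ₐ[R] L).toRingHom := by
      apply Polynomial.ringHom_ext
      · intro r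
        simp [halgR]
      · simp [x]
    exact congrArg (fun g : R[X] →+* L => g f) h1
  have hxt : Transcendental (integralClosure R L) x := by
    apply transcendental_of_ker
    intro f hf n
    rw [← hj] at hf
    have h1 : algebraMap R[X] D f = 0 := hjinj (by rw [hf, map_zero])
    rw [halgR, hker f h1 n, map_zero]
  have hxt' : Transcendental (integralClosure R L) x⁻¹ := by
    intro h
    exact hxt (IsAlgebraic.inv_iff.mp h)
  have hx : x ≠ 0 := by
    intro h
    apply hxt
    rw [h]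
    exact isAlgebraic_zero
  haveI : CharP L p := by
    rw [CharP.charP_iff_prime_eq_zero (Fact.out : p.Prime)]
    have h1 : ((p : R) : R) = 0 := hp
    have h2 : algebraMap R L (p : R) = 0 := by rw [h1, map_zero]
    rwa [map_natCast] at h2
  obtain ⟨F, hF0, hF1, hFone, hFint⟩ := exists_glue (R := R) x hxt hxt'
  -- generators
  obtain ⟨s, hs⟩ := (Module.Finite.fg_top : (⊤ : Submodule R[X] D).FG)
  have hjA : ∀ d : D, j d ∈ AI R x := by
    intro d
    rw [mem_AI]
    obtain ⟨q, hq, hqd⟩ := Algebra.IsIntegral.isIntegral (R := R[X]) d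
    refine ⟨q, hq, ?_⟩
    have h1 := congrArg j hqd
    rw [Polynomial.hom_eval₂, map_zero] at h1
    have h2 : j.comp (algebraMap R[X] D) = (aeval x : R[X] →ₐ[R] L).toRingHom := by
      ext f
      · exact hj _
      · exact hj _
    rw [h2] at h1
    exact h1
  choose M hM using fun d : D => exists_pow_mul_mem hx (hjA d)
  let M0 : ℕ := s.sup M
  have hM0 : ∀ u ∈ s, ∀ m : ℕ, M0 ≤ m → x⁻¹ ^ m * j u ∈ AI R x⁻¹ := fun u hu m hm =>
    hM u m (le_trans (Finset.le_sup (f := M) hu) hm)
  -- claim: everything lies in NN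
  let S0 : Set L := ⋃ u ∈ s, ⋃ m ∈ Finset.range (M0 + 1), {x⁻¹ ^ m * j u}
  have hS0 : S0.Finite := by
    apply Set.Finite.biUnion (Finset.finite_toSet s)
    intro u _
    apply Set.Finite.biUnion (Finset.finite_toSet _)
    intro m _
    exact Set.finite_singleton _
  have hmemS0 : ∀ u ∈ s, ∀ m ≤ M0, x⁻¹ ^ m * j u ∈ S0 := by
    intro u hu m hm
    simp only [S0, Set.mem_iUnion]
    exact ⟨u, hu, m, Finset.mem_range.mpr (by omega), rfl⟩
  have hspan : ∀ (d : D) (n : ℤ), x ^ n * j d ∈ Submodule.span R S0 ⊔ NN R x := by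
    intro d
    apply zpow_mul_mem_of_gens j x hx hj (s : Set D) hs
    intro u hu n
    rcases le_or_gt 0 n with hn | hn
    · lift n to ℕ using hn
      apply Submodule.mem_sup_right
      apply mem_NN_left
      rw [zpow_natCast]
      exact mul_mem (pow_mem (self_mem_AI x) n) (hjA u)
    · obtain ⟨m, rfl⟩ : ∃ m : ℕ, n = -(m : ℤ) := ⟨n.natAbs, by omega⟩
      rw [zpow_neg, zpow_natCast, ← inv_pow]
      rcases le_or_gt m M0 with hm | hm
      · exact Submodule.mem_sup_left (Submodule.subset_span (hmemS0 u hu m hm))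
      · exact Submodule.mem_sup_right (mem_NN_right (hM0 u hu m hm.le))
  have hNN : ∀ (d : D) (n : ℤ), x ^ n * j d ∈ NN R x := by
    intro d n
    apply mem_NN_of_noetherian p x S0 hS0
    intro i
    have h1 : (x ^ n * j d) ^ p ^ i = x ^ (n * (p ^ i : ℕ)) * j (d ^ p ^ i) := by
      rw [mul_pow, map_pow, ← zpow_natCast (x ^ n), ← zpow_mul]
    rw [h1]
    exact hspan _ _
  -- values of F on the image
  let S1 : Set L := ⋃ u ∈ s, ⋃ m ∈ Finset.range (M0 + 1), {F ⟨x ^ (-(m : ℤ)) * j u, hNN u _⟩}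
  have hS1 : S1.Finite := by
    apply Set.Finite.biUnion (Finset.finite_toSet s)
    intro u _
    apply Set.Finite.biUnion (Finset.finite_toSet _)
    intro m _
    exact Set.finite_singleton _
  let K : Submodule R L := Submodule.map (NN R x).subtype
    (Submodule.comap F (Submodule.span R S1))
  have hK : ∀ (d : D) (n : ℤ), x ^ n * j d ∈ K := by
    intro d
    apply zpow_mul_mem_of_gens j x hx hj (s : Set D) hs
    intro u hu n
    refine ⟨⟨x ^ n * j u, hNN u n⟩, ?_, rfl⟩
    change F ⟨x ^ n * j u, hNN u n⟩ ∈ Submodule.span R S1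
    rcases lt_or_ge 0 n with hn | hn
    · have h1 : x ^ n * j u = x * (x ^ (n.toNat - 1) * j u) := by
        obtain ⟨m, rfl⟩ : ∃ m : ℕ, n = ((m + 1 : ℕ) : ℤ) := ⟨n.toNat - 1, by omega⟩
        rw [zpow_natCast]
        simp only [Int.toNat_natCast, Nat.add_sub_cancel]
        ring
      have h2 := hF0 (x ^ (n.toNat - 1) * j u) (mul_mem (pow_mem (self_mem_AI x) _) (hjA u))
        (by rw [← h1]; exact hNN u n)
      have h3 : (⟨x ^ n * j u, hNN u n⟩ : NN R x) = ⟨x * (x ^ (n.toNat - 1) * j u),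
        by rw [← h1]; exact hNN u n⟩ := Subtype.ext h1
      rw [h3, h2]
      exact Submodule.zero_mem _
    · obtain ⟨m, rfl⟩ : ∃ m : ℕ, n = -(m : ℤ) := ⟨n.natAbs, by omega⟩
      rcases le_or_gt m M0 with hm | hm
      · apply Submodule.subset_span
        simp only [S1, Set.mem_iUnion]
        exact ⟨u, hu, m, Finset.mem_range.mpr (by omega), rfl⟩
      · obtain ⟨m', rfl⟩ : ∃ m' : ℕ, m = m' + 1 := ⟨m - 1, by omega⟩
        have h1 : x ^ (-((m' + 1 : ℕ) : ℤ)) * j u = x⁻¹ * (x⁻¹ ^ m' * j u) := by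
          rw [zpow_neg, zpow_natCast, ← inv_pow]
          ring
        have h2 := hF1 (x⁻¹ ^ m' * j u) (hM0 u hu m' (by omega))
          (by rw [← h1]; exact hNN u _)
        have h3 : (⟨x ^ (-((m' + 1 : ℕ) : ℤ)) * j u, hNN u _⟩ : NN R x) =
            ⟨x⁻¹ * (x⁻¹ ^ m' * j u), by rw [← h1]; exact hNN u _⟩ := Subtype.ext h1
        rw [h3, h2]
        exact Submodule.zero_mem _
  -- the finite algebra W
  let W : Subalgebra R L := Algebra.adjoin R S1
  have hWfin : Module.Finite R W := by
    have h1 : (Subalgebra.toSubmodule W).FG := by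
      apply fg_adjoin_of_finite hS1
      intro z hz
      simp only [S1, Set.mem_iUnion] at hz
      obtain ⟨u, _, m, _, rfl⟩ := hz
      exact hFint _
    exact Module.Finite.iff_fg.mpr h1
  have hFW : ∀ (d : D) (n : ℤ), F ⟨x ^ n * j d, hNN d n⟩ ∈ W := by
    intro d n
    obtain ⟨z, hz, hzz⟩ := hK d n
    have h1 : z = ⟨x ^ n * j d, hNN d n⟩ := Subtype.ext hzz
    rw [← h1]
    have h2 : Submodule.span R S1 ≤ Subalgebra.toSubmodule W := by
      rw [Submodule.span_le]
      exact Algebra.subset_adjoin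
    exact h2 hz
  refine ⟨W, inferInstance, inferInstance, inferInstance, hWfin, ?_, ?_⟩
  · intro r
    rw [← Subtype.coe_inj]
    change algebraMap R L r = 0 ↔ _
    rw [halgR]
    constructor
    · intro h
      exact hjinj (by rw [h, map_zero])
    · intro h
      rw [h, map_zero]
  · intro ρ
    let c : D → ℕ → R := fun d n => ρ ⟨F ⟨x ^ (-(n : ℤ)) * j d, hNN d _⟩, hFW d _⟩
    have hc0 : ∀ d (n : ℕ), F ⟨x ^ (-(n : ℤ)) * j d, hNN d _⟩ = 0 → c d n = 0 := by
      intro d n h
      have : (⟨F ⟨x ^ (-(n : ℤ)) * j d, hNN d _⟩, hFW d _⟩ : W) = 0 := Subtype.ext h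
      change ρ _ = 0
      rw [this, map_zero]
    have e1 : ∀ d, ∃ N, ∀ n, N ≤ n → c d n = 0 := by
      intro d
      refine ⟨M d + 1, fun n hn => hc0 d n ?_⟩
      obtain ⟨m', rfl⟩ : ∃ m' : ℕ, n = m' + 1 := ⟨n - 1, by omega⟩
      have h1 : x ^ (-((m' + 1 : ℕ) : ℤ)) * j d = x⁻¹ * (x⁻¹ ^ m' * j d) := by
        rw [zpow_neg, zpow_natCast, ← inv_pow]
        ring
      have h2 := hF1 (x⁻¹ ^ m' * j d) (hM d m' (by omega)) (by rw [← h1]; exact hNN d _)
      have h3 : (⟨x ^ (-((m' + 1 : ℕ) : ℤ)) * j d, hNN d _⟩ : NN R x) =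
          ⟨x⁻¹ * (x⁻¹ ^ m' * j d), by rw [← h1]; exact hNN d _⟩ := Subtype.ext h1
      rw [h3, h2]
    have e2 : ∀ d d' n, c (d + d') n = c d n + c d' n := by
      intro d d' n
      change ρ _ = ρ _ + ρ _
      rw [← map_add]
      congr 1
      apply Subtype.ext
      change F _ = F _ + F _
      rw [← map_add]
      congr 1
      apply Subtype.ext
      change x ^ (-(n : ℤ)) * j (d + d') = x ^ (-(n : ℤ)) * j d + x ^ (-(n : ℤ)) * j d'
      rw [map_add, mul_add]
    have e3 : ∀ r d n, c (algebraMap R[X] D (C r) * d) n = r * c d n := by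
      intro r d n
      have k1 : (⟨x ^ (-(n : ℤ)) * j (algebraMap R[X] D (C r) * d), hNN _ _⟩ : NN R x) =
          r • ⟨x ^ (-(n : ℤ)) * j d, hNN d _⟩ := by
        apply Subtype.ext
        change x ^ (-(n : ℤ)) * j (algebraMap R[X] D (C r) * d) = r • (x ^ (-(n : ℤ)) * j d)
        rw [map_mul, ← halgR, Algebra.smul_def]
        ring
      have k2 : (⟨F ⟨x ^ (-(n : ℤ)) * j (algebraMap R[X] D (C r) * d), hNN _ _⟩, hFW _ _⟩ : W) =
          r • ⟨F ⟨x ^ (-(n : ℤ)) * j d, hNN d _⟩, hFW d _⟩ := by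
        apply Subtype.ext
        change F _ = r • F _
        rw [← map_smul]
        exact congrArg F k1
      change ρ _ = r * ρ _
      rw [k2, map_smul, smul_eq_mul]
    have e4 : ∀ d, c (algebraMap R[X] D X * d) 0 = 0 := by
      intro d
      apply hc0
      have h1 : x ^ (-((0 : ℕ) : ℤ)) * j (algebraMap R[X] D X * d) = x * j d := by
        simp [x]
      have h2 := hF0 (j d) (hjA d) (by rw [← h1]; exact hNN _ _)
      have h3 : (⟨x ^ (-((0 : ℕ) : ℤ)) * j (algebraMap R[X] D X * d), hNN _ _⟩ : NN R x) =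
          ⟨x * j d, by rw [← h1]; exact hNN _ _⟩ := Subtype.ext h1
      rw [h3, h2]
    have e5 : ∀ d n, c (algebraMap R[X] D X * d) (n + 1) = c d n := by
      intro d n
      change ρ _ = ρ _
      congr 1
      apply Subtype.ext
      change F _ = F _
      congr 1
      apply Subtype.ext
      change x ^ (-((n + 1 : ℕ) : ℤ)) * j (algebraMap R[X] D X * d) = x ^ (-(n : ℤ)) * j d
      rw [map_mul, zpow_neg, zpow_neg, zpow_natCast, zpow_natCast, pow_succ, mul_inv]
      change (x ^ n)⁻¹ * x⁻¹ * (x * j d) = (x ^ n)⁻¹ * j d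
      rw [mul_assoc, inv_mul_cancel_left₀ hx]
    obtain ⟨φ, hφ⟩ := exists_linear_of_coeff (R := R) (D := D) c e1 e2 e3 e4 e5
    refine ⟨φ, ?_⟩
    ext n
    rw [hφ, coeff_C]
    split_ifs with hn
    · subst hn
      have h1 : x ^ (-((0 : ℕ) : ℤ)) * j 1 = 1 := by simp
      have h2 := hFone (by rw [← h1]; exact hNN 1 _)
      have h3 : (⟨x ^ (-((0 : ℕ) : ℤ)) * j 1, hNN 1 _⟩ : NN R x) =
          ⟨1, by rw [← h1]; exact hNN 1 _⟩ := Subtype.ext h1
      have h4 : (⟨F ⟨x ^ (-((0 : ℕ) : ℤ)) * j 1, hNN 1 _⟩, hFW 1 _⟩ : W) = 1 :=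
        Subtype.ext (by
          change F _ = (1 : L)
          rw [h3]
          exact h2)
      change ρ _ = _
      rw [h4]
    · apply hc0
      obtain ⟨m', rfl⟩ : ∃ m' : ℕ, n = m' + 1 := ⟨n - 1, by omega⟩
      have h1 : x ^ (-((m' + 1 : ℕ) : ℤ)) * j 1 = x⁻¹ * (x⁻¹ ^ m') := by
        rw [zpow_neg, zpow_natCast, ← inv_pow, map_one]
        ring
      have h2 := hF1 (x⁻¹ ^ m') (pow_mem (self_mem_AI _) _) (by rw [← h1]; exact hNN 1 _)
      have h3 : (⟨x ^ (-((m' + 1 : ℕ) : ℤ)) * j 1, hNN 1 _⟩ : NN R x) =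
          ⟨x⁻¹ * (x⁻¹ ^ m'), by rw [← h1]; exact hNN 1 _⟩ := Subtype.ext h1
      rw [h3, h2]

end Pool.Agent.Helper47.Splinter
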