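import Mathlib

namespace Pool.Agent.Helper47.Kos

open Finset

section Sign

variable {n : ℕ}

/-- The sign of `j` relative to `F`. -/
def sg (j : Fin n) (F : Finset (Fin n)) : ℤ := (-1) ^ (F.filter (· < j)).card

lemma sg_mul_self (j : Fin n) (F : Finset (Fin n)) : sg j F * sg j F = 1 := by
  unfold sg
  rw [← mul_pow]
  simp

lemma sg_erase_self (j : Fin n) (F : Finset (Fin n)) : sg j (F.erase j) = sg j F := by
  unfold sg
  congr 2
  ext t
  simp only [mem_filter, mem_erase, ne_eq]
  constructor
  · rintro ⟨⟨_, h1⟩, h2⟩; exact ⟨h1, h2⟩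
  · rintro ⟨h1, h2⟩; exact ⟨⟨ne_of_lt h2, h1⟩, h2⟩

lemma sg_insert_self (j : Fin n) (F : Finset (Fin n)) : sg j (insert j F) = sg j F := by
  unfold sg
  congr 2
  ext t
  simp only [mem_filter, mem_insert]
  constructor
  · rintro ⟨h1 | h1, h2⟩
    · exact absurd h1 (ne_of_lt h2)
    · exact ⟨h1, h2⟩
  · rintro ⟨h1, h2⟩; exact ⟨Or.inr h1, h2⟩

lemma sg_insert_of_lt {i j : Fin n} {F : Finset (Fin n)} (hi : i ∉ F) (hij : i < j) :
    sg j (insert i F) = - sg j F := by
  unfold sg
  rw [filter_insert, if_pos hij, card_insert_of_notMem (by simp [hi]), pow_succ]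
  ring

lemma sg_insert_of_gt {i j : Fin n} {F : Finset (Fin n)} (hij : j < i) :
    sg j (insert i F) = sg j F := by
  unfold sg
  rw [filter_insert, if_neg (not_lt.mpr hij.le)]

lemma sg_erase_of_lt {i j : Fin n} {F : Finset (Fin n)} (hi : i ∈ F) (hij : i < j) :
    sg j (F.erase i) = - sg j F := by
  have h := sg_insert_of_lt (F := F.erase i) (notMem_erase i F) hij
  rw [insert_erase hi] at h
  rw [h, neg_neg]

lemma sg_erase_of_gt {i j : Fin n} {F : Finset (Fin n)} (hi : i ∈ F) (hij : j < i) :
    sg j (F.erase i) = sg j F := by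
  have h := sg_insert_of_gt (F := F.erase i) hij
  rw [insert_erase hi] at h
  exact h.symm

/-- The sign rule behind `d ∘ d = 0`. -/
lemma sg_anti {i j : Fin n} {F : Finset (Fin n)} (hi : i ∈ F) (hj : j ∈ F) (hij : i ≠ j) :
    sg i F * sg j (F.erase i) = - (sg j F * sg i (F.erase j)) := by
  rcases lt_or_gt_of_ne hij with h | h
  · rw [sg_erase_of_lt hi h, sg_erase_of_gt hj h]; ring
  · rw [sg_erase_of_gt hi h, sg_erase_of_lt hj h]; ring

end Sign

section Complex

variable {n : ℕ} {R : Type*} [CommRing R] {M : Type*} [AddCommGroup M] [Module R M]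

/-- The Koszul differential, in cochain form. -/
def d (x : Fin n → R) (c : Finset (Fin n) → M) (F : Finset (Fin n)) : M :=
  ∑ j ∈ F, sg j F • x j • c (F.erase j)

/-- The contraction with the `j`-th basis vector. -/
def h (j : Fin n) (c : Finset (Fin n) → M) (F : Finset (Fin n)) : M :=
  if j ∈ F then 0 else sg j F • c (insert j F)

lemma d_add (x : Fin n → R) (c c' : Finset (Fin n) → M) (F : Finset (Fin n)) :
    d x (fun G => c G + c' G) F = d x c F + d x c' F := by
  simp only [d, smul_add, sum_add_distrib]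

lemma d_smul (x : Fin n → R) (r : R) (c : Finset (Fin n) → M) (F : Finset (Fin n)) :
    d x (fun G => r • c G) F = r • d x c F := by
  simp only [d, smul_sum]
  apply sum_congr rfl
  intro j _
  rw [smul_comm (x j) r, smul_comm (sg j F) r]

lemma d_congr (x : Fin n → R) {c c' : Finset (Fin n) → M} {F : Finset (Fin n)}
    (hc : ∀ j ∈ F, c (F.erase j) = c' (F.erase j)) : d x c F = d x c' F := by
  unfold d
  apply sum_congr rfl
  intro j hj
  rw [hc j hj]

lemma d_d (x : Fin n → R) (c : Finset (Fin n) → M) (F : Finset (Fin n)) :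
    d x (d x c) F = 0 := by
  unfold d
  simp only [smul_sum]
  rw [sum_sigma']
  refine sum_involution (fun p _ => ⟨p.2, p.1⟩) ?_ ?_ ?_ ?_
  · rintro ⟨i, j⟩ hp
    simp only [mem_sigma, mem_erase] at hp
    obtain ⟨hi, hji, hj⟩ := hp
    have h1 := sg_anti hi hj (Ne.symm hji)
    have h2 : (F.erase j).erase i = (F.erase i).erase j := erase_right_comm
    simp only
    rw [h2, smul_comm (x i) (sg j (F.erase i)), smul_comm (x j) (sg i (F.erase j)), ← mul_smul,
      ← mul_smul (sg j F), h1, smul_comm (x j) (x i), neg_smul]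
    exact neg_add_cancel _
  · rintro ⟨i, j⟩ hp _
    simp only [mem_sigma, mem_erase] at hp
    intro heq
    have : j = i := congrArg Sigma.fst heq
    exact hp.2.1 this
  · rintro ⟨i, j⟩ hp
    simp only [mem_sigma, mem_erase] at hp ⊢
    exact ⟨hp.2.2, Ne.symm hp.2.1, hp.1⟩
  · rintro ⟨i, j⟩ _
    rfl

lemma homotopy (x : Fin n → R) (j : Fin n) (c : Finset (Fin n) → M) (F : Finset (Fin n)) :
    d x (h j c) F + h j (d x c) F = x j • c F := by
  by_cases hj : j ∈ F
  · have h1 : h j (d x c) F = 0 := by simp [h, hj]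
    rw [h1, add_zero]
    unfold d
    rw [sum_eq_single j]
    · have : h j c (F.erase j) = sg j F • c F := by
        simp only [h, notMem_erase, if_false]
        rw [sg_erase_self, insert_erase hj]
      rw [this, smul_comm (x j) (sg j F), ← mul_smul, sg_mul_self, one_smul]
    · intro i hi hij
      have : h j c (F.erase i) = 0 := by
        simp only [h]
        rw [if_pos (mem_erase.mpr ⟨hij.symm, hj⟩)]
      rw [this, smul_zero, smul_zero]
    · intro hj'; exact absurd hj hj'
  · have h1 : h j (d x c) F = x j • c F +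
        ∑ i ∈ F, (sg j F * sg i (insert j F)) • x i • c ((insert j F).erase i) := by
      simp only [h, hj, if_false, d]
      rw [sum_insert hj, smul_add, smul_sum]
      congr 1
      · rw [sg_insert_self, ← mul_smul, sg_mul_self, one_smul, erase_insert hj]
      · apply sum_congr rfl
        intro i _
        rw [← mul_smul]
    rw [h1]
    unfold d
    have h2 : ∀ i ∈ F, sg i F • x i • h j c (F.erase i) =
        - ((sg j F * sg i (insert j F)) • x i • c ((insert j F).erase i)) := by
      intro i hi
      have hij : i ≠ j := fun e => hj (e ▸ hi)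
      have h3 : (insert j F).erase i = insert j (F.erase i) :=
        erase_insert_of_ne (Ne.symm hij)
      have h4 : h j c (F.erase i) = sg j (F.erase i) • c (insert j (F.erase i)) := by
        simp only [h]
        rw [if_neg (fun hm => hj (mem_of_mem_erase hm))]
      rw [h3, h4, smul_comm (x i) (sg j (F.erase i)), ← mul_smul, ← neg_smul]
      congr 1
      rcases lt_or_gt_of_ne hij with hlt | hlt
      · rw [sg_erase_of_lt hi hlt, sg_insert_of_gt hlt]; ring
      · rw [sg_erase_of_gt hi hlt, sg_insert_of_lt hj hlt]; ring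
    rw [sum_congr rfl h2, sum_neg_distrib]
    abel

end Complex

end Pool.Agent.Helper47.Kos
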