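import Mathlib
import Pool.Agent.Helper47.KosBasic

open Finset RingTheory.Sequence
open scoped Pointwise

namespace Pool.Agent.Helper47.Kos

universe v

variable {n : ℕ} {R : Type*} [CommRing R]

/-- Exactness of the Koszul complex at cochain degree `i`. -/
def ExactAt (x : Fin n → R) (i : ℕ) (M : Type v) [AddCommGroup M] [Module R M] : Prop :=
  ∀ c : Finset (Fin n) → M, (∀ F : Finset (Fin n), F.card = i + 1 → d x c F = 0) →
    ∃ b : Finset (Fin n) → M, ∀ F : Finset (Fin n), F.card = i → c F = d x b F

/-- Functoriality of `d`. -/
lemma d_map (x : Fin n → R) {M N : Type*} [AddCommGroup M] [Module R M] [AddCommGroup N]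
    [Module R N] (f : M →ₗ[R] N) (c : Finset (Fin n) → M) (F : Finset (Fin n)) :
    f (d x c F) = d x (fun G => f (c G)) F := by
  unfold d
  rw [map_sum]
  apply sum_congr rfl
  intro j _
  rw [map_zsmul, map_smul]

/-- Multiplication by an element of the ideal is null-homotopic. -/
lemma homotopy_sum (x : Fin n → R) (g : Fin n → R) {M : Type*} [AddCommGroup M] [Module R M]
    (c : Finset (Fin n) → M) (F : Finset (Fin n))
    (hc : ∀ j, j ∉ F → d x c (insert j F) = 0) :
    (∑ j, g j * x j) • c F = d x (fun G => ∑ j, g j • h j c G) F := by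
  have h1 : d x (fun G => ∑ j, g j • h j c G) F = ∑ j, g j • d x (h j c) F := by
    unfold d
    simp only [smul_sum]
    rw [sum_comm]
    apply sum_congr rfl
    intro j _
    apply sum_congr rfl
    intro i _
    rw [smul_comm (x i) (g j), smul_comm (sg i F) (g j)]
  rw [h1, sum_smul]
  apply sum_congr rfl
  intro j _
  have h2 := homotopy x j c F
  have h3 : h j (d x c) F = 0 := by
    unfold h
    split_ifs with hj
    · rfl
    · rw [hc j hj, smul_zero]
  rw [h3, add_zero] at h2
  rw [h2, mul_smul]

lemma mem_smul_top_iff' {M : Type*} [AddCommGroup M] [Module R M] (r : R) (m : M) :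
    (QuotSMulTop r M → True) → ((r • (⊤ : Submodule R M)).mkQ m = 0 ↔ ∃ m', m = r • m') := by
  intro _
  rw [Submodule.mkQ_apply, Submodule.Quotient.mk_eq_zero, Submodule.mem_smul_pointwise_iff_exists]
  constructor
  · rintro ⟨m', _, hm'⟩; exact ⟨m', hm'.symm⟩
  · rintro ⟨m', hm'⟩; exact ⟨m', trivial, hm'.symm⟩

/-- A weakly regular sequence of length `> i` makes the complex exact in degree `i`. -/
theorem exactAt_of_regular (x : Fin n → R) (i : ℕ) :
    ∀ (M : Type v) [AddCommGroup M] [Module R M] (rs : List R)
      (_ : ∀ r ∈ rs, r ∈ Ideal.span (Set.range x)) (_ : IsWeaklyRegular M rs)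
      (_ : i < rs.length), ExactAt x i M := by
  induction i with
  | zero =>
    intro M _ _ rs hmem hreg hlen c hc
    cases rs with
    | nil => simp at hlen
    | cons f rs' =>
      rw [isWeaklyRegular_cons_iff] at hreg
      obtain ⟨g, hg⟩ := Ideal.mem_span_range_iff_exists_fun.mp (hmem f List.mem_cons_self)
      refine ⟨fun _ => 0, ?_⟩
      intro F hF
      have hF0 : F = ∅ := card_eq_zero.mp hF
      subst hF0
      have h1 := homotopy_sum x g c ∅ (by
        intro j _
        apply hc
        simp)
      have h2 : d x (fun G => ∑ j, g j • h j c G) ∅ = 0 := by simp [d]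
      rw [h2, hg] at h1
      have h3 : d x (fun _ => (0 : M)) ∅ = 0 := by simp [d]
      rw [h3]
      exact hreg.1.right_eq_zero_of_smul h1
  | succ i ih =>
    intro M _ _ rs hmem hreg hlen c hc
    cases rs with
    | nil => simp at hlen
    | cons f rs' =>
      rw [isWeaklyRegular_cons_iff] at hreg
      obtain ⟨g, hg⟩ := Ideal.mem_span_range_iff_exists_fun.mp (hmem f List.mem_cons_self)
      let b1 : Finset (Fin n) → M := fun G => ∑ j, g j • h j c G
      have hb1 : ∀ F : Finset (Fin n), F.card = i + 1 → f • c F = d x b1 F := by
        intro F hF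
        rw [← hg]
        apply homotopy_sum
        intro j hj
        apply hc
        rw [card_insert_of_notMem hj, hF]
      let π : M →ₗ[R] QuotSMulTop f M := (f • (⊤ : Submodule R M)).mkQ
      have hπ : ∀ m, π m = 0 ↔ ∃ m', m = f • m' := fun m => mem_smul_top_iff' f m (fun _ => trivial)
      obtain ⟨a', ha'⟩ := ih (QuotSMulTop f M) rs'
        (fun r hr => hmem r (List.mem_cons_of_mem f hr)) hreg.2
        (by simpa using hlen) (fun G => π (b1 G)) (by
          intro F hF
          rw [← d_map x π, ← hb1 F hF]
          exact (hπ _).mpr ⟨_, rfl⟩)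
      choose a ha using fun G => Submodule.mkQ_surjective (f • (⊤ : Submodule R M)) (a' G)
      have hdiff : ∀ G : Finset (Fin n), G.card = i → ∃ m', b1 G - d x a G = f • m' := by
        intro G hG
        rw [← hπ, map_sub, sub_eq_zero, d_map]
        have h2 := ha' G hG
        rw [h2]
        apply d_congr
        intro j _
        exact (ha _).symm
      choose! b' hb' using hdiff
      refine ⟨b', ?_⟩
      intro F hF
      have h1 : d x b1 F = d x (fun G => d x a G + f • b' G) F := by
        apply d_congr
        intro j hj
        have hcard : (F.erase j).card = i := by rw [card_erase_of_mem hj, hF]; rfl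
        have := hb' _ hcard
        rw [← this]
        abel
      have h2 : f • c F = f • d x b' F := by
        rw [hb1 F hF, h1, d_add x (d x a) (fun G => f • b' G), d_d, zero_add, d_smul]
      exact hreg.1 h2

/-- Exactness in degrees `< t` produces a weakly regular sequence of length `t`. -/
theorem exists_regular_of_exactAt [IsNoetherianRing R] (x : Fin n → R) (t : ℕ) :
    ∀ (M : Type v) [AddCommGroup M] [Module R M] [Module.Finite R M]
      (_ : ∀ i < t, ExactAt x i M),
      ∃ rs : List R, rs.length = t ∧ (∀ r ∈ rs, r ∈ Ideal.span (Set.range x)) ∧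
        IsWeaklyRegular M rs := by
  induction t with
  | zero =>
    intro M _ _ _ _
    exact ⟨[], rfl, by simp, IsWeaklyRegular.nil R M⟩
  | succ t ih =>
    intro M _ _ _ hM
    -- a regular element
    have hsub : Subsingleton ((R ⧸ Ideal.span (Set.range x)) →ₗ[R] M) := by
      refine ⟨fun φ ψ => ?_⟩
      have key : ∀ φ : (R ⧸ Ideal.span (Set.range x)) →ₗ[R] M, φ = 0 := by
        intro φ
        have h1 : φ 1 = 0 := by
          obtain ⟨b, hb⟩ := hM 0 (Nat.succ_pos t) (fun _ => φ 1) (by
            intro F _
            unfold d
            apply sum_eq_zero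
            intro j _
            have : x j • φ 1 = 0 := by
              rw [← map_smul]
              have h2 : x j • (1 : R ⧸ Ideal.span (Set.range x)) = 0 := by
                rw [Algebra.smul_def, mul_one]
                exact Ideal.Quotient.eq_zero_iff_mem.mpr (Ideal.subset_span ⟨j, rfl⟩)
              rw [h2, map_zero]
            rw [this, smul_zero])
          have := hb ∅ rfl
          simpa [d] using this
        ext
        simpa using h1
      rw [key φ, key ψ]
    obtain ⟨f, hf, hfreg⟩ := IsSMulRegular.subsingleton_linearMap_iff.mp hsub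
    rw [Ideal.annihilator_quotient] at hf
    let π : M →ₗ[R] QuotSMulTop f M := (f • (⊤ : Submodule R M)).mkQ
    have hπ : ∀ m, π m = 0 ↔ ∃ m', m = f • m' := fun m => mem_smul_top_iff' f m (fun _ => trivial)
    obtain ⟨rs, hlen, hmem, hreg⟩ := ih (QuotSMulTop f M) (by
      intro i hi c' hc'
      choose c hcc using fun G => Submodule.mkQ_surjective (f • (⊤ : Submodule R M)) (c' G)
      have h1 : ∀ F : Finset (Fin n), F.card = i + 1 → ∃ m', d x c F = f • m' := by
        intro F hF
        rw [← hπ, d_map]
        have h2 := hc' F hF
        rw [← h2]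
        apply d_congr
        intro j _
        exact hcc _
      choose! b hb using h1
      obtain ⟨a, ha⟩ := hM (i + 1) (by omega) b (by
        intro F hF
        apply hfreg
        change f • d x b F = f • 0
        rw [smul_zero, ← d_smul]
        have h2 : d x (fun G => f • b G) F = d x (d x c) F := by
          apply d_congr
          intro j hj
          have hcard : (F.erase j).card = i + 1 := by rw [card_erase_of_mem hj, hF]; rfl
          exact (hb _ hcard).symm
        rw [h2, d_d])
      obtain ⟨e, he⟩ := hM i (by omega) (fun G => c G + (-f) • a G) (by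
        intro F hF
        rw [d_add x c (fun G => (-f) • a G), d_smul, hb F hF, ha F hF, neg_smul, add_neg_cancel])
      refine ⟨fun G => π (e G), ?_⟩
      intro F hF
      rw [← d_map x π, ← he F hF, map_add, map_smul]
      have h3 : (-f) • π (a F) = 0 := by
        rw [← map_smul, hπ]
        exact ⟨-(a F), by simp⟩
      rw [h3, add_zero]
      exact (hcc F).symm)
    refine ⟨f :: rs, by simp [hlen], ?_, ?_⟩
    · intro r hr
      rcases List.mem_cons.mp hr with rfl | hr
      · exact hf
      · exact hmem r hr
    · rw [isWeaklyRegular_cons_iff]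
      exact ⟨hfreg, hreg⟩

end Pool.Agent.Helper47.Kos
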