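import Mathlib
import Pool.Agent.Helper47.KosDepth

open Finset

noncomputable section

namespace Pool.Agent.Helper47.Kos

open MvPolynomial

variable {n : ℕ} {k : Type*} [Field k]

/-- Exponent vector of the squarefree monomial with support `w`. -/
def ev (w : Finset (Fin n)) : Fin n →₀ ℕ := ∑ i ∈ w, Finsupp.single i 1

lemma ev_apply (w : Finset (Fin n)) (i : Fin n) : ev w i = if i ∈ w then 1 else 0 := by
  unfold ev
  rw [Finsupp.finsetSum_apply]
  simp [Finsupp.single_apply]

lemma ev_le_iff (w : Finset (Fin n)) (m : Fin n →₀ ℕ) : ev w ≤ m ↔ w ⊆ m.support := by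
  constructor
  · intro h i hi
    have := h i
    rw [ev_apply, if_pos hi] at this
    rw [Finsupp.mem_support_iff]
    omega
  · intro h i
    rw [ev_apply]
    split_ifs with hi
    · have := Finsupp.mem_support_iff.mp (h hi)
      omega
    · omega

lemma ev_support (w : Finset (Fin n)) : (ev w).support = w := by
  ext i
  rw [Finsupp.mem_support_iff, ev_apply]
  simp

lemma prod_X_eq (w : Finset (Fin n)) :
    (∏ i ∈ w, X i : MvPolynomial (Fin n) k) = monomial (ev w) 1 := by
  unfold ev
  rw [monomial_sum_one]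
  rfl

/-- The squarefree monomial ideal generated by `L`. -/
def sqI (k : Type*) [Field k] (L : Set (Finset (Fin n))) : Ideal (MvPolynomial (Fin n) k) :=
  Ideal.span ((fun w : Finset (Fin n) => ∏ i ∈ w, X i) '' L)

lemma mem_sqI {L : Set (Finset (Fin n))} {f : MvPolynomial (Fin n) k} :
    f ∈ sqI k L ↔ ∀ m : Fin n →₀ ℕ, (∀ w ∈ L, ¬ w ⊆ m.support) → coeff m f = 0 := by
  have h1 : sqI k L = Ideal.span ((fun s => monomial s (1 : k)) '' (ev '' L)) := by
    unfold sqI
    congr 1
    rw [Set.image_image]
    apply Set.image_congr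
    intro w _
    exact prod_X_eq w
  rw [h1, mem_ideal_span_monomial_image]
  constructor
  · intro h m hm
    by_contra hne
    obtain ⟨_, ⟨w, hw, rfl⟩, hle⟩ := h m (MvPolynomial.mem_support_iff.mpr hne)
    exact hm w hw ((ev_le_iff w m).mp hle)
  · intro h m hm
    by_contra hne
    push Not at hne
    apply MvPolynomial.mem_support_iff.mp hm
    apply h
    intro w hw hsub
    exact hne (ev w) ⟨w, hw, rfl⟩ ((ev_le_iff w m).mpr hsub)

/-- No nonzero `k`-valued cocycle is supported on `L`. -/
def NoCocycle (k : Type*) [Field k] (L : Set (Finset (Fin n))) : Prop :=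
  ∀ ψ : Finset (Fin n) → k, (∀ w, ψ w ≠ 0 → w ∈ L) →
    (∀ F, d (fun _ => (1 : k)) ψ F = 0) → ψ = 0

/-- complement exponent -/
def EE (F : Finset (Fin n)) : Fin n →₀ ℕ := ev Fᶜ

lemma EE_apply (F : Finset (Fin n)) (i : Fin n) : EE F i = if i ∈ F then 0 else 1 := by
  unfold EE
  rw [ev_apply]
  by_cases h : i ∈ F <;> simp [h]

/-- The degree `σ` component of a cochain. -/
def part (σ : Fin n →₀ ℕ) (c : Finset (Fin n) → MvPolynomial (Fin n) k)
    (G : Finset (Fin n)) : k :=
  if EE G ≤ σ then coeff (σ - EE G) (c G) else 0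

lemma EE_erase {F : Finset (Fin n)} {j : Fin n} (hj : j ∈ F) :
    EE (F.erase j) = EE F + Finsupp.single j 1 := by
  ext i
  rw [Finsupp.add_apply, EE_apply, EE_apply, Finsupp.single_apply]
  by_cases hij : j = i
  · subst hij; simp [hj]
  · by_cases hi : i ∈ F
    · simp [hij, hi, Ne.symm hij]
    · simp [hij, hi]

lemma EE_insert {F : Finset (Fin n)} {j : Fin n} (hj : j ∉ F) :
    EE F = EE (insert j F) + Finsupp.single j 1 := by
  have := EE_erase (F := insert j F) (mem_insert_self j F)
  rwa [erase_insert hj] at this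

lemma coeff_d (σ : Fin n →₀ ℕ) (c : Finset (Fin n) → MvPolynomial (Fin n) k)
    (F : Finset (Fin n)) (hF : EE F ≤ σ) :
    coeff (σ - EE F) (d (X : Fin n → MvPolynomial (Fin n) k) c F) =
      d (fun _ => (1 : k)) (part σ c) F := by
  unfold d
  rw [coeff_sum]
  apply sum_congr rfl
  intro j hj
  have h1 : coeff (σ - EE F) (sg j F • (X j : MvPolynomial (Fin n) k) • c (F.erase j)) =
      sg j F • coeff (σ - EE F) ((X j : MvPolynomial (Fin n) k) * c (F.erase j)) := by
    rw [smul_eq_mul]
    exact map_zsmul (lcoeff (R := k) (σ - EE F)) _ _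
  rw [h1, one_smul, coeff_X_mul']
  congr 1
  unfold part
  have h2 : EE (F.erase j) ≤ σ ↔ j ∈ (σ - EE F).support := by
    rw [Finsupp.mem_support_iff, Finsupp.tsub_apply, EE_apply, if_pos hj, tsub_zero]
    constructor
    · intro h
      have := h j
      rw [EE_apply, if_neg (notMem_erase j F)] at this
      omega
    · intro h i
      by_cases hij : i = j
      · subst hij
        rw [EE_apply, if_neg (notMem_erase i F)]
        omega
      · have h3 := hF i
        rw [EE_erase hj, Finsupp.add_apply, Finsupp.single_apply, if_neg (Ne.symm hij), add_zero]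
        exact h3
  by_cases h : EE (F.erase j) ≤ σ
  · rw [if_pos h, if_pos (h2.mp h), EE_erase hj, tsub_add_eq_tsub_tsub]
  · rw [if_neg h, if_neg (fun h' => h (h2.mpr h'))]

lemma exists_poly (φ : (Fin n →₀ ℕ) → k) (hφ : (Function.support φ).Finite) :
    ∃ g : MvPolynomial (Fin n) k, ∀ m, coeff m g = φ m := by
  classical
  refine ⟨∑ m ∈ hφ.toFinset, monomial m (φ m), ?_⟩
  intro m
  rw [coeff_sum]
  simp only [coeff_monomial]
  rw [sum_ite_eq']
  split_ifs with h
  · rfl
  · rw [Set.Finite.mem_toFinset, Function.mem_support, not_not] at h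
    exact h.symm

/-- The contracting cochain. -/
lemma exists_contraction (J : (Fin n →₀ ℕ) → Fin n)
    (c : Finset (Fin n) → MvPolynomial (Fin n) k) :
    ∃ b : Finset (Fin n) → MvPolynomial (Fin n) k, ∀ (σ : Fin n →₀ ℕ), 1 ≤ σ (J σ) →
      part σ b = h (J σ) (part σ c) := by
  classical
  have key : ∀ F : Finset (Fin n), ∃ g : MvPolynomial (Fin n) k, ∀ m, coeff m g =
      if J (m + EE F) ∈ F then 0 else
        sg (J (m + EE F)) F • coeff (m + Finsupp.single (J (m + EE F)) 1)
          (c (insert (J (m + EE F)) F)) := by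
    intro F
    apply exists_poly
    have hfin : (⋃ j : Fin n, {m | m + Finsupp.single j 1 ∈ (c (insert j F)).support}).Finite := by
      apply Set.finite_iUnion
      intro j
      apply Set.Finite.preimage
      · intro a _ b _ hab
        exact add_right_cancel hab
      · exact Finset.finite_toSet _
    apply hfin.subset
    intro m hm
    rw [Function.mem_support] at hm
    split_ifs at hm with hJ
    · exact absurd rfl hm
    · rw [Set.mem_iUnion]
      refine ⟨J (m + EE F), ?_⟩
      change _ ∈ (c _).support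
      rw [MvPolynomial.mem_support_iff]
      intro h0
      apply hm
      rw [h0, smul_zero]
  choose b hb using key
  refine ⟨b, ?_⟩
  intro σ hσ
  funext G
  simp only [part, h]
  by_cases hG : EE G ≤ σ
  · rw [if_pos hG, hb]
    have h1 : σ - EE G + EE G = σ := tsub_add_cancel_of_le hG
    rw [h1]
    by_cases hJ : J σ ∈ G
    · rw [if_pos hJ, if_pos hJ]
    · rw [if_neg hJ, if_neg hJ]
      have h2 := EE_insert hJ
      have h3 : EE (insert (J σ) G) ≤ σ := by
        refine le_trans ?_ hG
        rw [h2]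
        exact le_self_add
      rw [if_pos h3]
      congr 2
      rw [h2]
      ext i
      have h4 := hG i
      rw [h2] at h4
      simp only [Finsupp.add_apply, Finsupp.tsub_apply] at h4 ⊢
      omega
  · rw [if_neg hG]
    by_cases hJ : J σ ∈ G
    · rw [if_pos hJ]
    · rw [if_neg hJ]
      have h3 : ¬ EE (insert (J σ) G) ≤ σ := by
        intro h3
        apply hG
        intro i
        by_cases hi : i = J σ
        · subst hi
          rw [EE_apply]
          split_ifs <;> omega
        · have h4 := h3 i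
          rw [EE_apply] at h4 ⊢
          by_cases hiG : i ∈ G
          · rw [if_pos hiG]; omega
          · rw [if_neg (by rw [mem_insert]; push Not; exact ⟨hi, hiG⟩)] at h4
            rw [if_neg hiG]
            exact h4
      rw [if_neg h3, smul_zero]

lemma tsub_EE_insert {σ : Fin n →₀ ℕ} {F : Finset (Fin n)} {j : Fin n} (hj : j ∉ F)
    (hF : EE F ≤ σ) : σ - EE (insert j F) = (σ - EE F) + Finsupp.single j 1 := by
  ext i
  have h2 := EE_insert hj
  have h4 := hF i
  rw [h2] at h4 ⊢
  simp only [Finsupp.add_apply, Finsupp.tsub_apply] at h4 ⊢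
  omega

lemma all_ones_case (L : Set (Finset (Fin n))) (q : ℕ) (hL : ∀ w ∈ L, w.card = q)
    (hno : NoCocycle k L) (c : Finset (Fin n) → MvPolynomial (Fin n) k)
    (hdc : ∀ F : Finset (Fin n), F.card = q →
      d (X : Fin n → MvPolynomial (Fin n) k) c F ∈ sqI k L)
    (σ : Fin n →₀ ℕ) (hσ1 : ∀ t, σ t = 1) (F : Finset (Fin n)) (hF : F.card = q) :
    d (fun _ => (1 : k)) (part σ c) F = 0 := by
  have hEEle : ∀ G : Finset (Fin n), EE G ≤ σ := by
    intro G t
    rw [hσ1 t, EE_apply]
    split_ifs <;> omega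
  have hsupp1 : ∀ G : Finset (Fin n), (σ - EE G).support = G := by
    intro G
    ext t
    rw [Finsupp.mem_support_iff, Finsupp.tsub_apply, hσ1 t, EE_apply]
    by_cases htG : t ∈ G <;> simp [htG]
  -- the cocycle
  let ψ : Finset (Fin n) → k := fun G =>
    if G.card = q then d (fun _ => (1 : k)) (part σ c) G else 0
  have hψL : ∀ w', ψ w' ≠ 0 → w' ∈ L := by
    intro w' hw'
    by_contra hnot
    apply hw'
    change (if w'.card = q then _ else 0) = (0 : k)
    split_ifs with hcq
    · rw [← coeff_d σ c w' (hEEle w')]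
      apply mem_sqI.mp (hdc w' hcq)
      intro w'' hw''L hsub
      rw [hsupp1] at hsub
      have : w'' = w' := eq_of_subset_of_card_le hsub (by rw [hL w'' hw''L, hcq])
      rw [this] at hw''L
      exact hnot hw''L
    · rfl
  have hψd : ∀ F', d (fun _ => (1 : k)) ψ F' = 0 := by
    intro F'
    by_cases hF'c : F'.card = q + 1
    · rw [← d_d (fun _ => (1 : k)) (part σ c) F']
      apply d_congr
      intro j hj
      change (if (F'.erase j).card = q then _ else 0) = _
      rw [if_pos (by rw [card_erase_of_mem hj, hF'c]; rfl)]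
    · unfold d
      apply sum_eq_zero
      intro j hj
      have : ψ (F'.erase j) = 0 := by
        change (if (F'.erase j).card = q then _ else 0) = (0 : k)
        rw [if_neg]
        rw [card_erase_of_mem hj]
        have : 0 < F'.card := card_pos.mpr ⟨j, hj⟩
        omega
      rw [this, smul_zero, smul_zero]
  have hψ0 := hno ψ hψL hψd
  have h7 : ψ F = 0 := by rw [hψ0]; rfl
  change (if F.card = q then _ else 0) = (0 : k) at h7
  rwa [if_pos hF] at h7

/-- The main coefficient computation. -/
lemma coeff_case (L : Set (Finset (Fin n))) (q i : ℕ) (hL : ∀ w ∈ L, w.card = q)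
    (hi : i + 1 ≤ q) (hcoc : i + 1 = q → NoCocycle k L)
    (c : Finset (Fin n) → MvPolynomial (Fin n) k)
    (hdc : ∀ F : Finset (Fin n), F.card = i + 1 →
      d (X : Fin n → MvPolynomial (Fin n) k) c F ∈ sqI k L)
    (σ : Fin n →₀ ℕ) (J : Fin n) (hJ1 : 1 ≤ σ J) (hJ2 : (∃ l, 2 ≤ σ l) → 2 ≤ σ J)
    (F : Finset (Fin n)) (hF : F.card = i) (hσF : EE F ≤ σ)
    (hm : ∀ w ∈ L, ¬ w ⊆ (σ - EE F).support) (hJF : J ∉ F) :
    d (fun _ => (1 : k)) (part σ c) (insert J F) = 0 := by
  classical
  have hins : EE (insert J F) ≤ σ := by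
    refine le_trans ?_ hσF
    rw [EE_insert hJF]
    exact le_self_add
  have hcard : (insert J F).card = i + 1 := by
    rw [card_insert_of_notMem hJF, hF]
  have hmem := mem_sqI.mp (hdc _ hcard)
  have hm' := tsub_EE_insert hJF hσF
  by_cases hstd : ∀ w ∈ L, ¬ w ⊆ (σ - EE (insert J F)).support
  · rw [← coeff_d σ c _ hins]
    exact hmem _ hstd
  · -- the exceptional case
    push Not at hstd
    obtain ⟨w, hwL, hw⟩ := hstd
    rw [hm'] at hw
    have hsupp : ((σ - EE F) + Finsupp.single J 1).support ⊆ insert J (σ - EE F).support := by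
      intro t ht
      rw [Finsupp.mem_support_iff, Finsupp.add_apply, Finsupp.single_apply] at ht
      rw [mem_insert, Finsupp.mem_support_iff]
      by_cases htJ : t = J
      · left; exact htJ
      · right
        rw [if_neg (Ne.symm htJ)] at ht
        simpa using ht
    have hno2 : ¬ ∃ l, 2 ≤ σ l := by
      intro h2
      have h3 := hJ2 h2
      have h5 : J ∈ (σ - EE F).support := by
        rw [Finsupp.mem_support_iff, Finsupp.tsub_apply, EE_apply, if_neg hJF]
        omega
      apply hm w hwL
      intro t ht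
      have := hsupp (hw ht)
      rw [insert_eq_of_mem h5] at this
      exact this
    push Not at hno2
    have hmF : (σ - EE F).support ⊆ F := by
      intro t ht
      by_contra htF
      rw [Finsupp.mem_support_iff, Finsupp.tsub_apply, EE_apply, if_neg htF] at ht
      have := hno2 t
      omega
    have hwF : w ⊆ insert J F := fun t ht =>
      insert_subset_insert _ hmF (hsupp (hw ht))
    have hwc : w.card = q := hL w hwL
    have hle : w.card ≤ (insert J F).card := card_le_card hwF
    have hiq : i + 1 = q := by omega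
    have hweq : w = insert J F := eq_of_subset_of_card_le hwF (by omega)
    -- sigma is identically one
    have hσ1 : ∀ t, σ t = 1 := by
      intro t
      have h2 := hno2 t
      have h1 : 1 ≤ σ t := by
        by_cases htF : t ∈ F
        · have htw : t ∈ w := by rw [hweq]; exact mem_insert_of_mem htF
          have h3 := hw htw
          have h4 : t ≠ J := fun e => hJF (e ▸ htF)
          rw [Finsupp.mem_support_iff, Finsupp.add_apply, Finsupp.single_apply,
            if_neg (Ne.symm h4), add_zero, Finsupp.tsub_apply] at h3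
          omega
        · have := hσF t
          rw [EE_apply, if_neg htF] at this
          exact this
      omega
    subst hiq
    exact all_ones_case L (i + 1) hL (hcoc rfl) c hdc σ hσ1 _ hcard

/-- Exactness of the Koszul complex of a squarefree monomial quotient in low degrees. -/
theorem exactAt_quot (L : Set (Finset (Fin n))) (q i : ℕ) (hL : ∀ w ∈ L, w.card = q)
    (hi : i + 1 ≤ q) (hin : i < n) (hcoc : i + 1 = q → NoCocycle k L) :
    ExactAt (X : Fin n → MvPolynomial (Fin n) k) i (MvPolynomial (Fin n) k ⧸ sqI k L) := by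
  classical
  intro c' hc'
  -- lift the cochain
  choose c hc using fun G => Submodule.Quotient.mk_surjective (sqI k L) (c' G)
  have hπ : ∀ f, (sqI k L).mkQ f = 0 ↔ f ∈ sqI k L := fun f => by
    rw [Submodule.mkQ_apply, Submodule.Quotient.mk_eq_zero]
  have hdc : ∀ F : Finset (Fin n), F.card = i + 1 →
      d (X : Fin n → MvPolynomial (Fin n) k) c F ∈ sqI k L := by
    intro F hF
    rw [← hπ, d_map, ← hc' F hF]
    apply d_congr
    intro j _
    exact hc _
  -- choice of the contracting variable
  have hchoice : ∀ σ : Fin n →₀ ℕ, ∃ j : Fin n, (∃ l, 1 ≤ σ l) →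
      (1 ≤ σ j ∧ ((∃ l, 2 ≤ σ l) → 2 ≤ σ j)) := by
    intro σ
    by_cases h2 : ∃ l, 2 ≤ σ l
    · obtain ⟨l, hl⟩ := h2
      exact ⟨l, fun _ => ⟨by omega, fun _ => hl⟩⟩
    · by_cases h1 : ∃ l, 1 ≤ σ l
      · obtain ⟨l, hl⟩ := h1
        exact ⟨l, fun _ => ⟨hl, fun h => absurd h h2⟩⟩
      · exact ⟨⟨i, hin⟩, fun h => absurd h h1⟩
  choose J hJ using hchoice
  obtain ⟨b, hb⟩ := exists_contraction J c
  refine ⟨fun G => (sqI k L).mkQ (b G), ?_⟩
  intro F hF
  rw [← hc F]
  change (sqI k L).mkQ (c F) = _
  rw [← d_map X (sqI k L).mkQ, ← sub_eq_zero, ← map_sub, hπ, mem_sqI]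
  intro m hm
  -- the total degree
  obtain ⟨σ, hσ⟩ : ∃ σ : Fin n →₀ ℕ, σ = m + EE F := ⟨_, rfl⟩
  have hσF : EE F ≤ σ := by rw [hσ]; exact le_add_self
  have hσm : σ - EE F = m := by rw [hσ]; exact add_tsub_cancel_right _ _
  have hex : ∃ l, 1 ≤ σ l := by
    have : ∃ l, l ∉ F := by
      by_contra hall
      push Not at hall
      have : F = univ := eq_univ_of_forall hall
      rw [this, card_univ, Fintype.card_fin] at hF
      omega
    obtain ⟨l, hl⟩ := this
    refine ⟨l, ?_⟩
    have := hσF l
    rw [EE_apply, if_neg hl] at this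
    exact this
  obtain ⟨hJ1, hJ2⟩ := hJ σ hex
  have e1 : coeff m (d (X : Fin n → MvPolynomial (Fin n) k) b F) =
      d (fun _ => (1 : k)) (h (J σ) (part σ c)) F := by
    rw [← hσm, coeff_d σ b F hσF, hb σ hJ1]
  have e2 : coeff m (c F) = part σ c F := by
    unfold part
    rw [if_pos hσF, hσm]
  have e3 := homotopy (fun _ : Fin n => (1 : k)) (J σ) (part σ c) F
  rw [one_smul] at e3
  have e4 : h (J σ) (d (fun _ => (1 : k)) (part σ c)) F = 0 := by
    by_cases hJF : J σ ∈ F
    · simp only [h, if_pos hJF]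
    · simp only [h, if_neg hJF]
      rw [coeff_case L q i hL hi hcoc c hdc σ (J σ) hJ1 hJ2 F hF hσF (by rw [hσm]; exact hm) hJF,
        smul_zero]
  rw [e4, add_zero] at e3
  rw [coeff_sub, e1, e2, e3, sub_self]

/-- A nonzero cocycle on `L` obstructs exactness. -/
theorem not_exactAt_quot (L : Set (Finset (Fin n))) (q : ℕ) (hq : 1 ≤ q)
    (hL : ∀ w ∈ L, w.card = q) (ψ : Finset (Fin n) → k) (hψL : ∀ w, ψ w ≠ 0 → w ∈ L)
    (hψd : ∀ F, d (fun _ => (1 : k)) ψ F = 0) (hψ0 : ψ ≠ 0) :
    ¬ ExactAt (X : Fin n → MvPolynomial (Fin n) k) (q - 1)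
      (MvPolynomial (Fin n) k ⧸ sqI k L) := by
  classical
  intro hex
  obtain ⟨w0, hw0⟩ : ∃ w, ψ w ≠ 0 := by
    by_contra hall
    push Not at hall
    exact hψ0 (funext hall)
  have hw0c := hL w0 (hψL w0 hw0)
  obtain ⟨j0, _⟩ : w0.Nonempty := card_pos.mp (by omega)
  let φ : Finset (Fin n) → k := h j0 ψ
  have hφ : ∀ F, d (fun _ => (1 : k)) φ F = ψ F := by
    intro F
    have h1 := homotopy (fun _ : Fin n => (1 : k)) j0 ψ F
    have h2 : h j0 (d (fun _ => (1 : k)) ψ) F = 0 := by
      unfold h
      split_ifs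
      · rfl
      · rw [hψd, smul_zero]
    rw [h2, add_zero, one_smul] at h1
    exact h1
  let π : MvPolynomial (Fin n) k →ₗ[MvPolynomial (Fin n) k] (MvPolynomial (Fin n) k ⧸ sqI k L) :=
    (sqI k L).mkQ
  have hπ : ∀ f, π f = 0 ↔ f ∈ sqI k L := fun f => by
    rw [Submodule.mkQ_apply, Submodule.Quotient.mk_eq_zero]
  let c : Finset (Fin n) → MvPolynomial (Fin n) k := fun T => monomial (ev T) (φ T)
  have hdc : ∀ F, d (X : Fin n → MvPolynomial (Fin n) k) c F = monomial (ev F) (ψ F) := by
    intro F
    rw [← hφ F]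
    unfold d
    rw [map_sum]
    apply sum_congr rfl
    intro j hj
    change sg j F • (X j : MvPolynomial (Fin n) k) • monomial (ev (F.erase j)) (φ (F.erase j)) = _
    have h1 : (X j : MvPolynomial (Fin n) k) • monomial (ev (F.erase j)) (φ (F.erase j)) =
        monomial (ev F) (φ (F.erase j)) := by
      rw [smul_eq_mul]
      have : (X j : MvPolynomial (Fin n) k) = monomial (Finsupp.single j 1) 1 := rfl
      rw [this, monomial_mul, one_mul]
      congr 1
      unfold ev
      rw [← add_sum_erase F _ hj]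
    rw [h1, one_smul]
    exact (map_zsmul (monomial (R := k) (ev F)) _ _).symm
  obtain ⟨b', hb'⟩ := hex (fun T => π (c T)) (by
    intro F _
    rw [← d_map X π, hπ, hdc, mem_sqI]
    intro m hm
    rw [coeff_monomial]
    split_ifs with hmF
    · by_contra hne
      apply hm F (hψL F hne)
      rw [← hmF, ev_support]
    · rfl)
  choose b hb using fun G => Submodule.Quotient.mk_surjective (sqI k L) (b' G)
  let β : Finset (Fin n) → k := fun R => coeff (ev R) (b R)
  have hβ : ∀ T : Finset (Fin n), T.card = q - 1 → φ T = d (fun _ => (1 : k)) β T := by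
    intro T hT
    have h1 : π (c T - d (X : Fin n → MvPolynomial (Fin n) k) b T) = 0 := by
      rw [map_sub, hb' T hT, d_map, sub_eq_zero]
      apply d_congr
      intro j _
      exact (hb _).symm
    rw [hπ, mem_sqI] at h1
    have h2 := h1 (ev T) (by
      intro w hw hsub
      rw [ev_support] at hsub
      have := card_le_card hsub
      rw [hL w hw, hT] at this
      omega)
    rw [coeff_sub, sub_eq_zero] at h2
    change coeff (ev T) (monomial (ev T) (φ T)) = _ at h2
    rw [coeff_monomial, if_pos rfl] at h2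
    rw [h2]
    unfold d
    rw [coeff_sum]
    apply sum_congr rfl
    intro j hj
    have h3 : coeff (ev T) (sg j T • (X j : MvPolynomial (Fin n) k) • b (T.erase j)) =
        sg j T • coeff (ev T) ((X j : MvPolynomial (Fin n) k) * b (T.erase j)) := by
      rw [smul_eq_mul]
      exact map_zsmul (lcoeff (R := k) (ev T)) _ _
    rw [h3, one_smul, coeff_X_mul', ev_support, if_pos hj]
    congr 2
    ext t
    rw [Finsupp.tsub_apply, ev_apply, ev_apply, Finsupp.single_apply]
    by_cases htj : t = j
    · subst htj; simp [hj]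
    · by_cases htT : t ∈ T
      · simp [htj, htT, Ne.symm htj]
      · simp [htT]
  apply hw0
  rw [← hφ w0]
  have h4 : d (fun _ => (1 : k)) φ w0 = d (fun _ => (1 : k)) (d (fun _ => (1 : k)) β) w0 := by
    apply d_congr
    intro j hj
    apply hβ
    rw [card_erase_of_mem hj, hw0c]
  rw [h4, d_d]

end Pool.Agent.Helper47.Kos
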