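import Mathlib

/-!
Definitions for squarefree lexsegment ideals. A squarefree monomial `x_{i_1} ⋯ x_{i_q}` of
`k[x_0, …, x_{n-1}]` is represented by its support, a `Finset (Fin n)`; the variable `x_s` of the
paper (1-based) is the variable with index `s - 1` here.
-/

namespace Pool.Agent.Helper47.LexSeg

variable {n : ℕ}

/-- `A >_lex B` for the squarefree monomials with supports `A` and `B` (with `x_0 > x_1 > ⋯`):
at the first index where the exponents differ, `A` has the larger exponent. -/
def LexGT (A B : Finset (Fin n)) : Prop :=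
  ∃ s, s ∈ A ∧ s ∉ B ∧ ∀ t, t < s → (t ∈ A ↔ t ∈ B)

/-- `A ≥_lex B`. -/
def LexGE (A B : Finset (Fin n)) : Prop := A = B ∨ LexGT A B

/-- The ideal generated by the squarefree lexsegment `L(u, v)` of degree `q`. -/
noncomputable def lexsegmentIdeal (k : Type*) [Field k] (q : ℕ) (u v : Finset (Fin n)) :
    Ideal (MvPolynomial (Fin n) k) :=
  Ideal.span ((fun w : Finset (Fin n) => ∏ i ∈ w, MvPolynomial.X i) ''
    {w | w.card = q ∧ LexGE u w ∧ LexGE w v})

/-- The support of `w_0 = x_{i_2 - 1} ⋯ x_{i_q - 1} x_n` for `u = x_1 x_{i_2} ⋯ x_{i_q}`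
(1-based): the indices `s` such that `s + 1` belongs to `u`, together with the last index. -/
def w0 (u : Finset (Fin n)) : Finset (Fin n) :=
  Finset.univ.filter (fun s => s.val + 1 = n ∨ ∃ i ∈ u, i.val = s.val + 1)

/-- The depth of `M` with respect to the ideal `J`: the supremum of the lengths of the
`M`-regular sequences with all entries in `J`. -/
noncomputable def depth {S : Type*} [CommRing S] (J : Ideal S) (M : Type*) [AddCommGroup M]
    [Module S M] : ℕ∞ :=
  ⨆ rs : {rs : List S // (∀ r ∈ rs, r ∈ J) ∧ RingTheory.Sequence.IsRegular M rs},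
    (rs.1.length : ℕ∞)

end Pool.Agent.Helper47.LexSeg
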