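import Mathlib
import Pool.Agent.Helper47.LexDefs

open Finset

namespace Pool.Agent.Helper47.LexSeg

variable {n : ℕ}

lemma LexGT.trans {A B C : Finset (Fin n)} (h1 : LexGT A B) (h2 : LexGT B C) : LexGT A C := by
  obtain ⟨s, hsA, hsB, hs⟩ := h1
  obtain ⟨r, hrB, hrC, hr⟩ := h2
  rcases lt_trichotomy s r with h | h | h
  · exact ⟨s, hsA, fun hc => hsB ((hr s h).mpr hc), fun t ht =>
      (hs t ht).trans (hr t (ht.trans h))⟩
  · subst h; exact absurd hrB hsB
  · exact ⟨r, (hs r h).mpr hrB, hrC, fun t ht => (hs t (ht.trans h)).trans (hr t ht)⟩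

lemma LexGT.irrefl (A : Finset (Fin n)) : ¬ LexGT A A := by
  rintro ⟨s, h1, h2, _⟩
  exact h2 h1

lemma LexGE.trans {A B C : Finset (Fin n)} (h1 : LexGE A B) (h2 : LexGE B C) : LexGE A C := by
  rcases h1 with rfl | h1
  · exact h2
  · rcases h2 with rfl | h2
    · exact Or.inr h1
    · exact Or.inr (h1.trans h2)

lemma LexGE.not_gt {A B : Finset (Fin n)} (h1 : LexGE A B) : ¬ LexGT B A := by
  intro h2
  rcases h1 with rfl | h1
  · exact LexGT.irrefl _ h2
  · exact LexGT.irrefl _ (h1.trans h2)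

lemma lex_total (A B : Finset (Fin n)) : LexGE A B ∨ LexGT B A := by
  by_cases h : A = B
  · exact Or.inl (Or.inl h)
  · have hne : (univ.filter (fun s => ¬ (s ∈ A ↔ s ∈ B))).Nonempty := by
      by_contra hne
      rw [not_nonempty_iff_eq_empty, filter_eq_empty_iff] at hne
      apply h
      ext s
      have := hne (mem_univ s)
      rwa [not_not] at this
    let s := (univ.filter (fun s => ¬ (s ∈ A ↔ s ∈ B))).min' hne
    have hs : s ∈ univ.filter (fun s => ¬ (s ∈ A ↔ s ∈ B)) := min'_mem _ _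
    rw [mem_filter] at hs
    have hlt : ∀ t, t < s → (t ∈ A ↔ t ∈ B) := by
      intro t ht
      by_contra hc
      have hmem : t ∈ univ.filter (fun s => ¬ (s ∈ A ↔ s ∈ B)) := by
        rw [mem_filter]
        exact ⟨mem_univ t, hc⟩
      have : s ≤ t := min'_le _ t hmem
      exact absurd ht (not_lt.mpr this)
    by_cases hA : s ∈ A
    · have hB : s ∉ B := fun hB => hs.2 ⟨fun _ => hB, fun _ => hA⟩
      exact Or.inl (Or.inr ⟨s, hA, hB, hlt⟩)
    · have hB : s ∈ B := by
        by_contra hB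
        exact hs.2 ⟨fun h => absurd h hA, fun h => absurd h hB⟩
      exact Or.inr ⟨s, hB, hA, fun t ht => (hlt t ht).symm⟩

lemma lexGT_of_min {A B : Finset (Fin n)} {s : Fin n} (hs : s ∈ A) (hA : ∀ t ∈ A, s ≤ t)
    (hB : ∀ t ∈ B, s < t) : LexGT A B := by
  refine ⟨s, hs, fun h => lt_irrefl _ (hB s h), ?_⟩
  intro t ht
  constructor
  · intro h; exact absurd ht (not_lt.mpr (hA t h))
  · intro h; exact absurd ht (not_lt.mpr (hB t h).le)

lemma lexGE_insert_iff {A B : Finset (Fin n)} {s : Fin n} (hA : ∀ t ∈ A, s < t)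
    (hB : ∀ t ∈ B, s < t) : LexGE (insert s A) (insert s B) ↔ LexGE A B := by
  have hsA : s ∉ A := fun h => lt_irrefl _ (hA s h)
  have hsB : s ∉ B := fun h => lt_irrefl _ (hB s h)
  constructor
  · rintro (h | ⟨r, hr1, hr2, hr⟩)
    · left
      have := congrArg (fun X : Finset (Fin n) => X.erase s) h
      simpa [erase_insert hsA, erase_insert hsB] using this
    · right
      rw [mem_insert] at hr1
      rw [mem_insert, not_or] at hr2
      rcases hr1 with hr1 | hr1
      · exact absurd hr1 hr2.1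
      · refine ⟨r, hr1, hr2.2, ?_⟩
        intro t ht
        have h1 := hr t ht
        by_cases hts : t = s
        · subst hts
          exact ⟨fun h => absurd h hsA, fun h => absurd h hsB⟩
        · simpa [hts] using h1
  · rintro (h | ⟨r, hr1, hr2, hr⟩)
    · left; rw [h]
    · right
      refine ⟨r, mem_insert_of_mem hr1, ?_, ?_⟩
      · rw [mem_insert, not_or]
        exact ⟨ne_of_gt (hA r hr1), hr2⟩
      · intro t ht
        rw [mem_insert, mem_insert, hr t ht]

end Pool.Agent.Helper47.LexSeg
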