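import Mathlib
import Pool.Agent.Helper47.LexOrd
import Pool.Agent.Helper47.KosMon

open Finset
open Pool.Agent.Helper47.Kos (sg d h d_d d_congr sg_insert_of_lt)

namespace Pool.Agent.Helper47.LexSeg

variable {n : ℕ} {k : Type*} [Field k]

/-- Relative version of `w0` on the vertex set `{a, a+1, …}`. -/
def w0r (a : ℕ) (u : Finset (Fin n)) : Finset (Fin n) :=
  Finset.univ.filter (fun s => a ≤ s.val ∧ (s.val + 1 = n ∨ ∃ i ∈ u, i.val = s.val + 1))

lemma mem_w0r {a : ℕ} {u : Finset (Fin n)} {s : Fin n} :
    s ∈ w0r a u ↔ a ≤ s.val ∧ (s.val + 1 = n ∨ ∃ i ∈ u, i.val = s.val + 1) := by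
  simp [w0r]

lemma w0r_zero (u : Finset (Fin n)) : w0r 0 u = w0 u := by
  ext s
  simp [w0r, w0]

/-- The recursion for `w0r`. -/
lemma w0r_insert {a' b' β : Fin n} {u' : Finset (Fin n)} (hab : a' < b') (hb' : b' ∈ u')
    (hmin : ∀ i ∈ u', b' ≤ i) (hβ : β.val + 1 = b'.val) :
    w0r a'.val (insert a' u') = insert β (w0r b'.val u') := by
  ext s
  rw [mem_w0r, mem_insert, mem_w0r]
  have hab' : a'.val < b'.val := hab
  constructor
  · rintro ⟨h1, h2 | ⟨i, hi, hi2⟩⟩
    · right
      refine ⟨?_, Or.inl h2⟩
      have := b'.isLt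
      omega
    · rw [mem_insert] at hi
      rcases hi with rfl | hi
      · omega
      · have h3 : b'.val ≤ i.val := hmin i hi
        by_cases h4 : s.val + 1 = b'.val
        · left
          exact Fin.ext (by omega)
        · right
          exact ⟨by omega, Or.inr ⟨i, hi, hi2⟩⟩
  · rintro (rfl | ⟨h1, h2⟩)
    · exact ⟨by omega, Or.inr ⟨b', mem_insert_of_mem hb', by omega⟩⟩
    · refine ⟨by omega, ?_⟩
      rcases h2 with h2 | ⟨i, hi, hi2⟩
      · exact Or.inl h2
      · exact Or.inr ⟨i, mem_insert_of_mem hi, hi2⟩

lemma sg_ne_zero' (j : Fin n) (F : Finset (Fin n)) : sg j F ≠ 0 := by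
  unfold Pool.Agent.Helper47.Kos.sg
  exact pow_ne_zero _ (by norm_num)

lemma sg_smul_ne_zero (j : Fin n) (F : Finset (Fin n)) {y : k} (hy : y ≠ 0) :
    sg j F • (1 : k) • y ≠ 0 := by
  rw [one_smul]
  intro h0
  apply hy
  have h1 : sg j F • sg j F • y = 0 := by rw [h0, smul_zero]
  rwa [← mul_smul, Pool.Agent.Helper47.Kos.sg_mul_self, one_smul] at h1

/-- If a cochain vanishes on all `F.erase i` except for `i = j`, the coboundary is nonzero. -/
lemma d_ne_zero_of_unique {α : Finset (Fin n) → k} {F : Finset (Fin n)} {j : Fin n} (hj : j ∈ F)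
    (h1 : α (F.erase j) ≠ 0) (h2 : ∀ i ∈ F, i ≠ j → α (F.erase i) = 0) :
    d (fun _ => (1 : k)) α F ≠ 0 := by
  unfold Pool.Agent.Helper47.Kos.d
  rw [sum_eq_single j]
  · exact sg_smul_ne_zero j F h1
  · intro i hi hij
    rw [h2 i hi hij, smul_zero, smul_zero]
  · intro hj'; exact absurd hj hj'

/-- Existence of the block cocycle. -/
theorem exists_cocycle (q : ℕ) : ∀ (a : Fin n) (u : Finset (Fin n)), u.card = q + 1 → a ∈ u →
    (∀ i ∈ u, a ≤ i) →
    ∃ ψ : Finset (Fin n) → k, (∃ w, ψ w ≠ 0) ∧
      (∀ w, ψ w ≠ 0 → w.card = q + 1 ∧ (∀ i ∈ w, a ≤ i) ∧ LexGE u w ∧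
        LexGE w (w0r a.val u)) ∧
      ∀ F : Finset (Fin n), (∀ i ∈ F, a ≤ i) → d (fun _ => (1 : k)) ψ F = 0 := by
  classical
  induction q with
  | zero =>
    intro a u hu ha _
    obtain ⟨a', rfl⟩ := card_eq_one.mp hu
    rw [mem_singleton] at ha
    subst ha
    -- the cochain which is one on the singletons of `{a, …}`
    let δ0 : Finset (Fin n) → k := fun G => if G = ∅ then 1 else 0
    let ψ : Finset (Fin n) → k := fun w => if ∀ i ∈ w, a ≤ i then d (fun _ => (1 : k)) δ0 w else 0
    have hψ : ∀ w, ψ w ≠ 0 → ∃ j, a ≤ j ∧ w = {j} := by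
      intro w hw
      have hwa : ∀ i ∈ w, a ≤ i := by
        by_contra hc
        apply hw
        change (if ∀ i ∈ w, a ≤ i then _ else (0 : k)) = 0
        rw [if_neg hc]
      have hw' : d (fun _ => (1 : k)) δ0 w ≠ 0 := by
        have h3 : ψ w = d (fun _ => (1 : k)) δ0 w := by
          change (if ∀ i ∈ w, a ≤ i then _ else (0 : k)) = _
          rw [if_pos hwa]
        rwa [h3] at hw
      obtain ⟨j, hj, hjne⟩ : ∃ j ∈ w, δ0 (w.erase j) ≠ 0 := by
        by_contra hall
        push Not at hall
        apply hw'
        unfold Pool.Agent.Helper47.Kos.d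
        apply sum_eq_zero
        intro j hj
        rw [hall j hj, smul_zero, smul_zero]
      have h4 : w.erase j = ∅ := by
        by_contra hc
        apply hjne
        change (if w.erase j = ∅ then (1 : k) else 0) = 0
        rw [if_neg hc]
      refine ⟨j, hwa j hj, ?_⟩
      rw [← insert_erase hj, h4, insert_empty_eq]
    refine ⟨ψ, ⟨{a}, ?_⟩, ?_, ?_⟩
    · have h3 : ψ {a} = d (fun _ => (1 : k)) δ0 {a} := by
        change (if ∀ i ∈ ({a} : Finset (Fin n)), a ≤ i then _ else (0 : k)) = _
        rw [if_pos (by intro i hi; rw [mem_singleton.mp hi])]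
      rw [h3]
      apply d_ne_zero_of_unique (mem_singleton_self a)
      · have h5 : ({a} : Finset (Fin n)).erase a = ∅ := by simp
        rw [h5]
        change (if (∅ : Finset (Fin n)) = ∅ then (1 : k) else 0) ≠ 0
        rw [if_pos rfl]
        exact one_ne_zero
      · intro i hi hia
        exact absurd (mem_singleton.mp hi) hia
    · intro w hw
      obtain ⟨j, haj, rfl⟩ := hψ w hw
      refine ⟨card_singleton j, ?_, ?_, ?_⟩
      · intro i hi; rw [mem_singleton.mp hi]; exact haj
      · rcases eq_or_lt_of_le haj with rfl | hlt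
        · exact Or.inl rfl
        · exact Or.inr (lexGT_of_min (mem_singleton_self a)
            (by intro t ht; rw [mem_singleton.mp ht])
            (by intro t ht; rw [mem_singleton.mp ht]; exact hlt))
      · -- w0r is the singleton of the last element
        have hlast : ∀ s, s ∈ w0r a.val {a} ↔ s.val + 1 = n := by
          intro s
          rw [mem_w0r]
          constructor
          · rintro ⟨h1, h2 | ⟨i, hi, hi2⟩⟩
            · exact h2
            · rw [mem_singleton.mp hi] at hi2; omega
          · intro h1
            exact ⟨by have := a.isLt; omega, Or.inl h1⟩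
        by_cases hj : j.val + 1 = n
        · left
          ext s
          rw [mem_singleton, hlast]
          constructor
          · rintro rfl; exact hj
          · intro hs; exact Fin.ext (by omega)
        · right
          apply lexGT_of_min (mem_singleton_self j)
          · intro t ht; rw [mem_singleton.mp ht]
          · intro t ht
            rw [hlast] at ht
            have := j.isLt
            exact Fin.lt_def.mpr (by omega)
    · intro F hF
      rw [← d_d (fun _ => (1 : k)) δ0 F]
      apply d_congr
      intro j _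
      change (if ∀ i ∈ F.erase j, a ≤ i then _ else (0 : k)) = _
      rw [if_pos (fun i hi => hF i (mem_of_mem_erase hi))]
  | succ q ih =>
    intro a u hu ha hmin
    have hu' : (u.erase a).card = q + 1 := by rw [card_erase_of_mem ha, hu]; rfl
    have hne : (u.erase a).Nonempty := card_pos.mp (by omega)
    let b := (u.erase a).min' hne
    have hb : b ∈ u.erase a := min'_mem _ _
    have hbmin : ∀ i ∈ u.erase a, b ≤ i := fun i hi => min'_le _ i hi
    have hab : a < b := lt_of_le_of_ne (hmin b (mem_of_mem_erase hb)) (ne_of_mem_erase hb).symm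
    obtain ⟨α, ⟨T0, hT0⟩, hα, hαd⟩ := ih b (u.erase a) hu' hb hbmin
    let ψ : Finset (Fin n) → k := fun w => if ∀ i ∈ w, a ≤ i then d (fun _ => (1 : k)) α w else 0
    have hψ1 : ∀ w, (∀ i ∈ w, a ≤ i) → ψ w = d (fun _ => (1 : k)) α w := by
      intro w hw
      change (if ∀ i ∈ w, a ≤ i then _ else (0 : k)) = _
      rw [if_pos hw]
    let β : Fin n := ⟨b.val - 1, by have := b.isLt; omega⟩
    have hβ : β.val + 1 = b.val := by
      change b.val - 1 + 1 = b.val
      have : a.val < b.val := hab
      omega
    have hw0 : w0r a.val u = insert β (w0r b.val (u.erase a)) := by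
      have := w0r_insert hab hb hbmin hβ
      rwa [insert_erase ha] at this
    have hw0b : ∀ t ∈ w0r b.val (u.erase a), β < t := by
      intro t ht
      rw [mem_w0r] at ht
      exact Fin.lt_def.mpr (by omega)
    refine ⟨ψ, ⟨insert a T0, ?_⟩, ?_, ?_⟩
    · obtain ⟨hTc, hTb, _, _⟩ := hα T0 hT0
      have haT : a ∉ T0 := fun hh => absurd (hTb a hh) (not_le.mpr hab)
      rw [hψ1]
      · apply d_ne_zero_of_unique (mem_insert_self a T0)
        · rwa [erase_insert haT]
        · intro i hi hia
          by_contra hc
          obtain ⟨_, hb2, _, _⟩ := hα _ hc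
          exact absurd (hb2 a (mem_erase.mpr ⟨hia.symm, mem_insert_self a T0⟩)) (not_le.mpr hab)
      · intro i hi
        rcases mem_insert.mp hi with rfl | hi
        · exact le_refl _
        · exact hab.le.trans (hTb i hi)
    · intro w hw
      have hwa : ∀ i ∈ w, a ≤ i := by
        by_contra hc
        apply hw
        change (if ∀ i ∈ w, a ≤ i then _ else (0 : k)) = 0
        rw [if_neg hc]
      rw [hψ1 w hwa] at hw
      obtain ⟨j, hj, hjne⟩ : ∃ j ∈ w, α (w.erase j) ≠ 0 := by
        by_contra hall
        push Not at hall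
        apply hw
        unfold Pool.Agent.Helper47.Kos.d
        apply sum_eq_zero
        intro j hj
        rw [hall j hj, smul_zero, smul_zero]
      obtain ⟨hTc, hTb, hT1, hT2⟩ := hα _ hjne
      have hjb : j < b := by
        by_contra hc
        apply hw
        apply hαd
        intro i hi
        by_cases hij : i = j
        · rw [hij]; exact not_lt.mp hc
        · exact hTb i (mem_erase.mpr ⟨hij, hi⟩)
      have hwj : insert j (w.erase j) = w := insert_erase hj
      have haj : a ≤ j := hwa j hj
      refine ⟨?_, hwa, ?_, ?_⟩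
      · rw [card_erase_of_mem hj] at hTc
        have : 0 < w.card := card_pos.mpr ⟨j, hj⟩
        omega
      · rcases eq_or_lt_of_le haj with hjeq | hlt
        · have h6 : LexGE (insert a (u.erase a)) (insert a (w.erase j)) := by
            rw [lexGE_insert_iff]
            · exact hT1
            · intro t ht; exact lt_of_lt_of_le hab (hbmin t ht)
            · intro t ht
              exact lt_of_lt_of_le hab (hTb t ht)
          rw [insert_erase ha, hjeq, hwj] at h6
          exact h6
        · right
          apply lexGT_of_min ha hmin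
          intro t ht
          by_cases htj : t = j
          · rw [htj]; exact hlt
          · exact lt_of_lt_of_le hab (hTb t (mem_erase.mpr ⟨htj, ht⟩))
      · rw [hw0]
        have hjβ : j ≤ β := by
          apply Fin.le_def.mpr
          have : j.val < b.val := hjb
          omega
        rcases eq_or_lt_of_le hjβ with hjeq | hlt
        · have h6 : LexGE (insert j (w.erase j)) (insert j (w0r b.val (u.erase a))) := by
            rw [lexGE_insert_iff]
            · exact hT2
            · intro t ht; exact lt_of_lt_of_le hjb (hTb t ht)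
            · intro t ht; rw [hjeq]; exact hw0b t ht
          rw [hwj] at h6
          rw [← hjeq]
          exact h6
        · right
          apply lexGT_of_min hj
          · intro t ht
            by_cases htj : t = j
            · rw [htj]
            · exact (lt_of_lt_of_le hjb (hTb t (mem_erase.mpr ⟨htj, ht⟩))).le
          · intro t ht
            rcases mem_insert.mp ht with rfl | ht
            · exact hlt
            · exact hlt.trans (hw0b t ht)
    · intro F hF
      rw [← d_d (fun _ => (1 : k)) α F]
      apply d_congr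
      intro j _
      exact hψ1 _ (fun i hi => hF i (mem_of_mem_erase hi))

end Pool.Agent.Helper47.LexSeg
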