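import Mathlib
import Pool.Agent.Helper47.LexCoc

open Finset
open Pool.Agent.Helper47.Kos (sg d h d_d d_congr sg_insert_of_lt)

namespace Pool.Agent.Helper47.LexSeg

variable {n : ℕ} {k : Type*} [Field k]

/-- Cone formula: a cocycle on `{a, …}` is the coboundary of its `a`-part off `a`. -/
lemma eq_d_cone {ψ α : Finset (Fin n) → k} {a : Fin n}
    (hψd : ∀ F : Finset (Fin n), (∀ i ∈ F, a ≤ i) → d (fun _ => (1 : k)) ψ F = 0)
    (hα : ∀ T : Finset (Fin n), a ∉ T → α T = ψ (insert a T))
    {F : Finset (Fin n)} (hF : ∀ i ∈ F, a < i) : ψ F = d (fun _ => (1 : k)) α F := by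
  have haF : a ∉ F := fun h => lt_irrefl _ (hF a h)
  have h1 := hψd (insert a F) (by
    intro i hi
    rcases mem_insert.mp hi with rfl | hi
    · exact le_refl _
    · exact (hF i hi).le)
  unfold Pool.Agent.Helper47.Kos.d at h1 ⊢
  rw [sum_insert haF] at h1
  have hsga : sg a (insert a F) = 1 := by
    unfold Pool.Agent.Helper47.Kos.sg
    have : (insert a F).filter (· < a) = ∅ := by
      apply filter_eq_empty_iff.mpr
      intro t ht
      rcases mem_insert.mp ht with rfl | ht
      · exact lt_irrefl _
      · exact not_lt.mpr (hF t ht).le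
    rw [this]
    simp
  rw [hsga, one_smul, one_smul, erase_insert haF] at h1
  have h2 : ∑ j ∈ F, sg j (insert a F) • (1 : k) • ψ ((insert a F).erase j) =
      - ∑ j ∈ F, sg j F • (1 : k) • α (F.erase j) := by
    rw [← sum_neg_distrib]
    apply sum_congr rfl
    intro j hj
    have haj : a < j := hF j hj
    rw [sg_insert_of_lt haF haj, neg_smul]
    congr 3
    rw [hα _ (fun h => haF (mem_of_mem_erase h))]
    congr 1
    exact erase_insert_of_ne (ne_of_lt haj)
  rw [h2] at h1
  linear_combination h1

theorem w0_ge_of_cocycle (q : ℕ) : ∀ (a : Fin n) (u v : Finset (Fin n)), u.card = q + 1 →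
    a ∈ u → (∀ i ∈ u, a ≤ i) → v.card = q + 1 → (∀ i ∈ v, a ≤ i) →
    ∀ ψ : Finset (Fin n) → k, (∃ w, ψ w ≠ 0) →
      (∀ w, ψ w ≠ 0 → w.card = q + 1 ∧ (∀ i ∈ w, a ≤ i) ∧ LexGE u w ∧ LexGE w v) →
      (∀ F : Finset (Fin n), (∀ i ∈ F, a ≤ i) → d (fun _ => (1 : k)) ψ F = 0) →
      LexGE (w0r a.val u) v := by
  classical
  induction q with
  | zero =>
    intro a u v hu ha hmin hv hva ψ hψne hψ hψd
    obtain ⟨a', rfl⟩ := card_eq_one.mp hu
    rw [mem_singleton] at ha
    subst ha
    obtain ⟨w, hw⟩ := hψne
    obtain ⟨hwc, hwa, _, _⟩ := hψ w hw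
    obtain ⟨i, rfl⟩ := card_eq_one.mp hwc
    have hai : a ≤ i := hwa i (mem_singleton_self i)
    let l : Fin n := ⟨n - 1, by have := i.isLt; omega⟩
    have hil : i ≤ l := Fin.le_def.mpr (by change i.val ≤ n - 1; have := i.isLt; omega)
    have hψl : ψ {l} ≠ 0 := by
      rcases eq_or_lt_of_le hil with h | h
      · rwa [← h]
      · intro h0
        have hne : i ≠ l := ne_of_lt h
        have h1 := hψd {i, l} (by
          intro t ht
          rcases mem_insert.mp ht with rfl | ht
          · exact hai
          · rw [mem_singleton.mp ht]; exact hai.trans hil)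
        apply absurd h1
        apply d_ne_zero_of_unique (j := l) (by simp)
        · have : ({i, l} : Finset (Fin n)).erase l = {i} := by
            ext t
            simp only [mem_erase, mem_insert, mem_singleton]
            constructor
            · rintro ⟨h2, h3 | h3⟩
              · exact h3
              · exact absurd h3 h2
            · rintro rfl; exact ⟨hne, Or.inl rfl⟩
          rw [this]; exact hw
        · intro t ht htl
          have hti : t = i := by
            rcases mem_insert.mp ht with h2 | h2
            · exact h2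
            · exact absurd (mem_singleton.mp h2) htl
          have : ({i, l} : Finset (Fin n)).erase t = {l} := by
            rw [hti]
            exact erase_insert (by simpa using hne)
          rw [this]; exact h0
    have h2 := (hψ {l} hψl).2.2.2
    have h3 : w0r a.val {a} = {l} := by
      ext s
      rw [mem_w0r, mem_singleton]
      constructor
      · rintro ⟨h4, h5 | ⟨t, ht, ht2⟩⟩
        · exact Fin.ext (by change s.val = n - 1; omega)
        · rw [mem_singleton.mp ht] at ht2; omega
      · rintro rfl
        refine ⟨by have := a.isLt; change a.val ≤ n - 1; omega, Or.inl ?_⟩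
        change n - 1 + 1 = n
        have := a.isLt
        omega
    rw [h3]
    exact h2
  | succ q ih =>
    intro a u v hu ha hmin hv hva ψ hψne hψ hψd
    have hu' : (u.erase a).card = q + 1 := by rw [card_erase_of_mem ha, hu]; rfl
    have hne : (u.erase a).Nonempty := card_pos.mp (by omega)
    let b := (u.erase a).min' hne
    have hb : b ∈ u.erase a := min'_mem _ _
    have hbmin : ∀ i ∈ u.erase a, b ≤ i := fun i hi => min'_le _ i hi
    have hab : a < b := lt_of_le_of_ne (hmin b (mem_of_mem_erase hb)) (ne_of_mem_erase hb).symm
    let β : Fin n := ⟨b.val - 1, by have := b.isLt; omega⟩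
    have hβ : β.val + 1 = b.val := by
      change b.val - 1 + 1 = b.val
      have : a.val < b.val := hab
      omega
    have haβ : a ≤ β := Fin.le_def.mpr (by have : a.val < b.val := hab; omega)
    have hβb : β < b := Fin.lt_def.mpr (by omega)
    have hw0 : w0r a.val u = insert β (w0r b.val (u.erase a)) := by
      have := w0r_insert hab hb hbmin hβ
      rwa [insert_erase ha] at this
    have hw0b : ∀ t ∈ w0r b.val (u.erase a), β < t := by
      intro t ht
      rw [mem_w0r] at ht
      exact Fin.lt_def.mpr (by omega)
    -- the `a`-part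
    let α : Finset (Fin n) → k := fun T => if a ∈ T then 0 else ψ (insert a T)
    have hα1 : ∀ T : Finset (Fin n), a ∉ T → α T = ψ (insert a T) := by
      intro T hT
      change (if a ∈ T then 0 else ψ (insert a T)) = _
      rw [if_neg hT]
    have hαa : ∀ T : Finset (Fin n), α T ≠ 0 → a ∉ T := by
      intro T hT haT
      apply hT
      change (if a ∈ T then 0 else ψ (insert a T)) = _
      rw [if_pos haT]
    have hcone : ∀ F : Finset (Fin n), (∀ i ∈ F, a < i) → ψ F = d (fun _ => (1 : k)) α F :=
      fun F hF => eq_d_cone hψd hα1 hF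
    have hαne : ∃ T, α T ≠ 0 := by
      by_contra hall
      push Not at hall
      obtain ⟨w, hw⟩ := hψne
      obtain ⟨_, hwa, _, _⟩ := hψ w hw
      apply hw
      by_cases haw : a ∈ w
      · have h1 := hα1 (w.erase a) (notMem_erase a w)
        rw [insert_erase haw, hall] at h1
        exact h1.symm
      · rw [hcone w (fun i hi => lt_of_le_of_ne (hwa i hi) (fun e => haw (e ▸ hi)))]
        unfold Pool.Agent.Helper47.Kos.d
        apply sum_eq_zero
        intro j _
        rw [hall, smul_zero, smul_zero]
    have hαprop : ∀ T, α T ≠ 0 → T.card = q + 1 ∧ (∀ i ∈ T, a < i) ∧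
        LexGE (u.erase a) T ∧ ∀ i ∈ T, b ≤ i := by
      intro T hT
      have haT := hαa T hT
      rw [hα1 T haT] at hT
      obtain ⟨h1, h2, h3, _⟩ := hψ _ hT
      have h4 : ∀ i ∈ T, a < i := fun i hi =>
        lt_of_le_of_ne (h2 i (mem_insert_of_mem hi)) (fun e => haT (e ▸ hi))
      have h5 : LexGE (u.erase a) T := by
        rw [← insert_erase ha, lexGE_insert_iff] at h3
        · exact h3
        · intro t ht; exact lt_of_lt_of_le hab (hbmin t ht)
        · exact h4
      refine ⟨?_, h4, h5, ?_⟩
      · rw [card_insert_of_notMem haT] at h1; omega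
      · intro i hi
        by_contra hc
        rw [not_le] at hc
        have hTne : T.Nonempty := ⟨i, hi⟩
        apply h5.not_gt
        apply lexGT_of_min (min'_mem T hTne)
        · intro t ht; exact min'_le _ t ht
        · intro t ht
          exact lt_of_le_of_lt (min'_le _ i hi) (lt_of_lt_of_le hc (hbmin t ht))
    by_cases hav : a ∈ v
    · -- Case B
      have hv' : (v.erase a).card = q + 1 := by rw [card_erase_of_mem hav, hv]; rfl
      have hva' : ∀ t ∈ v.erase a, a < t := fun t ht =>
        lt_of_le_of_ne (hva t (mem_of_mem_erase ht)) (ne_of_mem_erase ht).symm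
      have hψa : ∀ w, ψ w ≠ 0 → a ∈ w := by
        intro w hw
        by_contra haw
        obtain ⟨_, h2, _, h4⟩ := hψ w hw
        apply h4.not_gt
        exact lexGT_of_min hav hva (fun t ht => lt_of_le_of_ne (h2 t ht) (fun e => haw (e ▸ ht)))
      have hαd : ∀ F : Finset (Fin n), (∀ i ∈ F, a < i) → d (fun _ => (1 : k)) α F = 0 := by
        intro F hF
        rw [← hcone F hF]
        by_contra hc
        exact lt_irrefl _ (hF a (hψa F hc))
      obtain ⟨T, hT⟩ := hαne
      obtain ⟨hTc, hTa, hT1, hTb⟩ := hαprop T hT
      -- b is the successor of a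
      have hbval : β = a := by
        by_contra hne'
        have hlt : a < β := lt_of_le_of_ne haβ (Ne.symm hne')
        have hβT : β ∉ T := fun hh => absurd (hTb β hh) (not_le.mpr hβb)
        have h1 := hαd (insert β T) (by
          intro i hi
          rcases mem_insert.mp hi with rfl | hi
          · exact hlt
          · exact hTa i hi)
        apply absurd h1
        apply d_ne_zero_of_unique (mem_insert_self β T)
        · rwa [erase_insert hβT]
        · intro i hi hiβ
          by_contra hc
          obtain ⟨_, _, _, h5⟩ := hαprop _ hc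
          exact absurd (h5 β (mem_erase.mpr ⟨hiβ.symm, mem_insert_self β T⟩)) (not_le.mpr hβb)
      have hba : b.val = a.val + 1 := by rw [← hβ, hbval]
      have hgt : ∀ t : Fin n, a < t → b ≤ t := fun t ht => Fin.le_def.mpr (by
        have : a.val < t.val := ht
        omega)
      have h6 := ih b (u.erase a) (v.erase a) hu' hb hbmin hv'
        (fun i hi => hgt i (hva' i hi)) α ⟨T, hT⟩ (by
          intro T' hT'
          obtain ⟨h1, h2, h3, h4⟩ := hαprop T' hT'
          refine ⟨h1, h4, h3, ?_⟩
          have haT' := hαa T' hT'
          rw [hα1 T' haT'] at hT'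
          obtain ⟨_, _, _, h5⟩ := hψ _ hT'
          rw [← insert_erase hav, lexGE_insert_iff h2 hva'] at h5
          exact h5)
        (fun F hF => hαd F (fun i hi => lt_of_lt_of_le hab (hF i hi)))
      rw [hw0, hbval, ← insert_erase hav, lexGE_insert_iff]
      · exact h6
      · intro t ht; rw [← hbval]; exact hw0b t ht
      · exact hva'
    · -- Case A
      have hvne : v.Nonempty := card_pos.mp (by omega)
      let v1 := v.min' hvne
      have hv1 : v1 ∈ v := min'_mem _ _
      have hv1min : ∀ t ∈ v, v1 ≤ t := fun t ht => min'_le _ t ht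
      have hav1 : a < v1 := lt_of_le_of_ne (hva v1 hv1) (fun e => hav (e ▸ hv1))
      rcases le_or_gt b v1 with hbv | hbv
      · rw [hw0]
        right
        apply lexGT_of_min (mem_insert_self _ _)
        · intro t ht
          rcases mem_insert.mp ht with rfl | ht
          · exact le_refl _
          · exact (hw0b t ht).le
        · intro t ht
          exact lt_of_lt_of_le hβb (hbv.trans (hv1min t ht))
      · have hv1β : v1 ≤ β := Fin.le_def.mpr (by have : v1.val < b.val := hbv; omega)
        have haβ' : a < β := lt_of_lt_of_le hav1 hv1β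
        have hαd : ∀ F : Finset (Fin n), (∀ i ∈ F, b ≤ i) → d (fun _ => (1 : k)) α F = 0 := by
          intro F hF
          rw [← hcone F (fun i hi => lt_of_lt_of_le hab (hF i hi))]
          by_contra hc
          obtain ⟨_, _, _, h4⟩ := hψ F hc
          apply h4.not_gt
          exact lexGT_of_min hv1 hv1min (fun t ht => lt_of_lt_of_le hbv (hF t ht))
        have hkey : ∀ T, α T ≠ 0 → LexGE (insert β T) v := by
          intro T hT
          obtain ⟨hTc, hTa, hT1, hTb⟩ := hαprop T hT
          have hβT : β ∉ T := fun hh => absurd (hTb β hh) (not_le.mpr hβb)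
          have h1 : ψ (insert β T) ≠ 0 := by
            rw [hcone (insert β T) (by
              intro i hi
              rcases mem_insert.mp hi with rfl | hi
              · exact haβ'
              · exact hTa i hi)]
            apply d_ne_zero_of_unique (mem_insert_self β T)
            · rwa [erase_insert hβT]
            · intro i hi hiβ
              by_contra hc
              obtain ⟨_, _, _, h5⟩ := hαprop _ hc
              exact absurd (h5 β (mem_erase.mpr ⟨hiβ.symm, mem_insert_self β T⟩))
                (not_le.mpr hβb)
          exact (hψ _ h1).2.2.2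
        obtain ⟨T, hT⟩ := hαne
        have hv1eq : v1 = β := by
          by_contra hne'
          have hlt : v1 < β := lt_of_le_of_ne hv1β hne'
          apply (hkey T hT).not_gt
          apply lexGT_of_min hv1 hv1min
          intro t ht
          rcases mem_insert.mp ht with rfl | ht
          · exact hlt
          · exact lt_of_lt_of_le hbv ((hαprop T hT).2.2.2 t ht)
        have hβv : β ∈ v := hv1eq ▸ hv1
        have hv'gt : ∀ t ∈ v.erase β, β < t := fun t ht =>
          lt_of_le_of_ne (hv1eq ▸ hv1min t (mem_of_mem_erase ht)) (ne_of_mem_erase ht).symm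
        have hv' : (v.erase β).card = q + 1 := by rw [card_erase_of_mem hβv, hv]; rfl
        have hgt : ∀ t : Fin n, β < t → b ≤ t := fun t ht => Fin.le_def.mpr (by
          have : β.val < t.val := ht
          omega)
        have h6 := ih b (u.erase a) (v.erase β) hu' hb hbmin hv'
          (fun i hi => hgt i (hv'gt i hi)) α ⟨T, hT⟩ (by
            intro T' hT'
            obtain ⟨h1, h2, h3, h4⟩ := hαprop T' hT'
            refine ⟨h1, h4, h3, ?_⟩
            have h5 := hkey T' hT'
            rw [← insert_erase hβv, lexGE_insert_iff (fun t ht => lt_of_lt_of_le hβb (h4 t ht))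
              hv'gt] at h5
            exact h5)
          hαd
        rw [hw0, ← insert_erase hβv, lexGE_insert_iff hw0b hv'gt]
        exact h6

end Pool.Agent.Helper47.LexSeg
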