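import Mathlib
import Pool.Agent.Helper47.SplMain

open Polynomial

namespace Pool.Agent.Helper47.PolynomialCharP

universe u

/-- A commutative ring `A` is a splinter if it is Noetherian and every finite ring map `A → T`
that is surjective on prime spectra splits as a map of `A`-modules, that is, there is an
`A`-linear map `ρ : T → A` with `ρ 1 = 1`. -/
def IsSplinter (A : Type u) [CommRing A] : Prop :=
  IsNoetherianRing A ∧
    ∀ (T : Type u) [CommRing T] [Algebra A T], Module.Finite A T →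
      Function.Surjective (PrimeSpectrum.comap (algebraMap A T)) →
        ∃ ρ : T →ₗ[A] A, ρ 1 = 1

/-- The key step at one minimal prime `𝔭` of the base. -/
lemma step (p : ℕ) [Fact p.Prime] (R : Type u) [CommRing R] (hp : (p : R) = 0)
    (h : IsSplinter R) (T : Type u) [CommRing T] [Algebra R[X] T] (hT : Module.Finite R[X] T)
    (hs : Function.Surjective (PrimeSpectrum.comap (algebraMap R[X] T)))
    (P : Ideal R) (hP : P ∈ minimalPrimes R) :
    ∃ e : R, 1 - e ∈ P ∧ ∃ φ : T →ₗ[R[X]] R[X], φ 1 = C e := by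
  classical
  obtain ⟨hN, hsplit⟩ := h
  haveI := hN
  haveI := hT
  haveI hPp : P.IsPrime := hP.1.1
  haveI hPC : (P.map (C : R →+* R[X])).IsPrime := Ideal.isPrime_map_C_of_isPrime
  obtain ⟨Q, hQ⟩ := hs ⟨P.map C, hPC⟩
  have hQ' : Q.asIdeal.comap (algebraMap R[X] T) = P.map C := by
    have := congrArg PrimeSpectrum.asIdeal hQ
    simpa using this
  haveI : Q.asIdeal.IsPrime := Q.2
  let D := T ⧸ Q.asIdeal
  haveI : Module.Finite R[X] D := Module.Finite.of_surjective
    (Ideal.Quotient.mkₐ R[X] Q.asIdeal).toLinearMap Ideal.Quotient.mk_surjective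
  have hzero : ∀ f : R[X], algebraMap R[X] D f = 0 ↔ f ∈ P.map (C : R →+* R[X]) := by
    intro f
    rw [← hQ', Ideal.mem_comap]
    exact Ideal.Quotient.eq_zero_iff_mem
  have hker : ∀ f : R[X], algebraMap R[X] D f = 0 →
      ∀ n, algebraMap R[X] D (C (f.coeff n)) = 0 := by
    intro f hf n
    rw [hzero] at hf ⊢
    exact Ideal.mem_map_of_mem C (Ideal.mem_map_C_iff.mp hf n)
  obtain ⟨W, _, _, _, hWfin, hWker, hW⟩ :=
    Pool.Agent.Helper47.Splinter.main_aux p hp (D := D) hker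
  have hWker' : ∀ r, algebraMap R W r = 0 ↔ r ∈ P := by
    intro r
    rw [hWker, hzero]
    constructor
    · intro hr
      have := Ideal.mem_map_C_iff.mp hr 0
      simpa using this
    · intro hr
      exact Ideal.mem_map_of_mem C hr
  -- the other minimal primes
  have hfin : (minimalPrimes R).Finite := minimalPrimes.finite_of_isNoetherianRing R
  let 𝔞 : Ideal R := (hfin.toFinset.filter (fun q => q ≠ P)).inf id
  have h𝔞le : ∀ q ∈ minimalPrimes R, q ≠ P → 𝔞 ≤ q := by
    intro q hq hne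
    exact Finset.inf_le (f := id) (Finset.mem_filter.mpr ⟨hfin.mem_toFinset.mpr hq, hne⟩)
  have h𝔞 : ¬ 𝔞 ≤ P := by
    intro hle
    obtain ⟨q, hq, hqP⟩ := (Ideal.IsPrime.inf_le' hPp).mp hle
    rw [Finset.mem_filter, hfin.mem_toFinset] at hq
    have hqP' : q ≤ P := hqP
    have : P ≤ q := hP.2 hq.1.1 hqP'
    exact hq.2 (le_antisymm hqP' this)
  -- the finite algebra `W × R/𝔞`
  have hsurj : Function.Surjective (PrimeSpectrum.comap (algebraMap R (W × (R ⧸ 𝔞)))) := by
    intro q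
    haveI := q.2
    obtain ⟨q', hq', hq'q⟩ := Ideal.exists_minimalPrimes_le (I := ⊥) (J := q.asIdeal) bot_le
    by_cases hne : q' = P
    · obtain ⟨Q1, -, hQ1p, hQ1⟩ := Ideal.exists_ideal_over_prime_of_isIntegral
        (R := R) (S := W) q.asIdeal ⊥ (by
          intro r hr
          have hr' : algebraMap R W r = 0 := by simpa using hr
          rw [hWker', ← hne] at hr'
          exact hq'q hr')
      refine ⟨PrimeSpectrum.comap (RingHom.fst W (R ⧸ 𝔞)) ⟨Q1, hQ1p⟩, ?_⟩
      apply PrimeSpectrum.ext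
      ext r
      rw [← hQ1]
      rfl
    · obtain ⟨Q1, -, hQ1p, hQ1⟩ := Ideal.exists_ideal_over_prime_of_isIntegral
        (R := R) (S := R ⧸ 𝔞) q.asIdeal ⊥ (by
          intro r hr
          have hr' : r ∈ 𝔞 := by
            have : algebraMap R (R ⧸ 𝔞) r = 0 := by simpa using hr
            exact Ideal.Quotient.eq_zero_iff_mem.mp this
          exact hq'q (h𝔞le q' hq' hne hr'))
      refine ⟨PrimeSpectrum.comap (RingHom.snd W (R ⧸ 𝔞)) ⟨Q1, hQ1p⟩, ?_⟩
      apply PrimeSpectrum.ext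
      ext r
      rw [← hQ1]
      rfl
  obtain ⟨ρ', hρ'⟩ := hsplit (W × (R ⧸ 𝔞)) inferInstance hsurj
  let ρ : W →ₗ[R] R := ρ'.comp (LinearMap.inl R W (R ⧸ 𝔞))
  obtain ⟨φ, hφ⟩ := hW ρ
  refine ⟨ρ 1, ?_, φ.comp (Ideal.Quotient.mkₐ R[X] Q.asIdeal).toLinearMap, ?_⟩
  · have h1 : (1 : R) - ρ 1 = ρ' (0, 1) := by
      rw [← hρ']
      change ρ' 1 - ρ' (1, 0) = _
      rw [← map_sub]
      congr 1
      ext <;> simp
    rw [h1]
    obtain ⟨a, ha, haP⟩ := SetLike.not_le_iff_exists.mp h𝔞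
    have h2 : a * ρ' (0, 1) = 0 := by
      rw [← smul_eq_mul, ← map_smul]
      have h3 : a • ((0, 1) : W × (R ⧸ 𝔞)) = 0 := by
        apply Prod.ext
        · simp
        · change a • (1 : R ⧸ 𝔞) = 0
          rw [Algebra.smul_def, mul_one]
          exact Ideal.Quotient.eq_zero_iff_mem.mpr ha
      rw [h3, map_zero]
    have h4 : a * ρ' (0, 1) ∈ P := by rw [h2]; exact P.zero_mem
    exact (hPp.mem_or_mem h4).resolve_left haP
  · rw [LinearMap.comp_apply]
    have : (Ideal.Quotient.mkₐ R[X] Q.asIdeal).toLinearMap 1 = 1 := by simp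
    rw [this, hφ]

/-- **Theorem.** If `R` is a splinter of prime characteristic `p`, then the polynomial ring `R[X]`
is a splinter. No further hypothesis (Gorenstein, excellent, G-ring, F-finite, ...) is made. -/
theorem result (p : ℕ) [Fact p.Prime] (R : Type u) [CommRing R] [CharP R p]
    (h : IsSplinter R) : IsSplinter R[X] := by
  have hp : (p : R) = 0 := CharP.cast_eq_zero R p
  haveI := h.1
  refine ⟨inferInstance, ?_⟩
  intro T _ _ hT hs
  let J : Ideal R :=
    { carrier := {e | ∃ φ : T →ₗ[R[X]] R[X], φ 1 = C e}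
      add_mem' := by
        rintro a b ⟨φ, hφ⟩ ⟨ψ, hψ⟩
        exact ⟨φ + ψ, by rw [LinearMap.add_apply, hφ, hψ, C_add]⟩
      zero_mem' := ⟨0, by simp⟩
      smul_mem' := by
        rintro a b ⟨φ, hφ⟩
        exact ⟨(C a : R[X]) • φ, by rw [LinearMap.smul_apply, hφ, smul_eq_mul, smul_eq_mul, C_mul]⟩ }
  have hJ : J = ⊤ := by
    by_contra hne
    obtain ⟨m, hm, hJm⟩ := Ideal.exists_le_maximal J hne
    haveI := hm.isPrime
    obtain ⟨P, hP, hPm⟩ := Ideal.exists_minimalPrimes_le (I := ⊥) (J := m) bot_le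
    obtain ⟨e, heP, φ, hφ⟩ := step p R hp h T hT hs P hP
    have he : e ∈ J := ⟨φ, hφ⟩
    apply hm.ne_top
    rw [Ideal.eq_top_iff_one]
    have : (1 : R) = (1 - e) + e := by ring
    rw [this]
    exact m.add_mem (hPm heP) (hJm he)
  have h1 : (1 : R) ∈ J := by rw [hJ]; trivial
  obtain ⟨φ, hφ⟩ := h1
  exact ⟨φ, by rw [hφ, C_1]⟩

end Pool.Agent.Helper47.PolynomialCharP
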